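import Mathlib

/-!
# A topological minimality criterion for affine maps on compact quotients of nilpotent groups
-/

set_option autoImplicit false

namespace Pool.Agent.TH142.PN

/-- `G` is a topological group with a subgroup `Γ`, a family of affine maps `y ↦ u h * θ h y`
and a central series `Gs 0 = G ≥ Gs 1 ≥ … ≥ Gs n = 1` whose steps are given by one-parameter groups
`e i` with `e i 1 ∈ Γ`. -/
structure AffSys (G : Type*) [Group G] [TopologicalSpace G] (Γ : Subgroup G) (H : Type*) (n : ℕ)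
    where
  Gs : ℕ → Subgroup G
  zero : Gs 0 = ⊤
  last : Gs n = ⊥
  le : ∀ i, Gs (i + 1) ≤ Gs i
  comm : ∀ i < n, ∀ g : G, ∀ k ∈ Gs i, g * k * g⁻¹ * k⁻¹ ∈ Gs (i + 1)
  e : ℕ → ℝ → G
  cont : ∀ i < n, Continuous (e i)
  add : ∀ i < n, ∀ s t, e i (s + t) = e i s * e i t
  mem : ∀ i < n, ∀ t, e i t ∈ Gs i
  gen : ∀ i < n, ∀ k ∈ Gs i, ∃ t, ∃ k' ∈ Gs (i + 1), k = e i t * k'
  e_one : ∀ i < n, e i 1 ∈ Γ
  u : H → G
  θ : H → G ≃* G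
  θcont : ∀ h, Continuous (θ h)
  θΓ : ∀ h, ∀ γ ∈ Γ, θ h γ ∈ Γ
  θGs : ∀ h, ∀ i < n, ∀ k ∈ Gs i, θ h k * k⁻¹ ∈ Gs (i + 1)
  θGs' : ∀ h, ∀ i < n, ∀ k ∈ Gs i, (θ h).symm k * k⁻¹ ∈ Gs (i + 1)

end Pool.Agent.TH142.PN
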