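import Mathlib
import Pool.Agent.TH91.RF.Core
import Pool.Agent.TH91.RF.Ex1

/-!
# Polynomial sequences in unipotent groups: definitions
-/

set_option autoImplicit false

namespace Pool.Agent.TH142.PN

open Finset Polynomial Pool.Agent.TH91.RF

noncomputable section

/-- Polynomial maps from the line to the `ι`-th power of the algebra of real matrices. -/
abbrev PM (ι : Type) (N : ℕ) := ι → Matrix (Fin N) (Fin N) ℝ[X]

variable {ι : Type} {N : ℕ}

/-- The weight filtration: the entry `(a, b)` of an element of `F v` is a polynomial of degree at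
most `Θ (b - a) - v`. -/
def wS (ι : Type) (N Θ v : ℕ) : Submodule ℝ (PM ι N) where
  carrier := {q | ∀ i a b n, (q i a b).coeff n ≠ 0 → n + v + Θ * (a : ℕ) ≤ Θ * (b : ℕ)}
  add_mem' := by
    intro q r hq hr i a b n h
    by_cases h1 : (q i a b).coeff n = 0
    · refine hr i a b n fun h2 => h ?_
      rw [Pi.add_apply, Matrix.add_apply, coeff_add, h1, h2, add_zero]
    · exact hq i a b n h1
  zero_mem' := by
    intro i a b n h
    exact absurd (by simp) h
  smul_mem' := by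
    intro c q hq i a b n h
    refine hq i a b n fun h2 => h ?_
    rw [Pi.smul_apply, Matrix.smul_apply, coeff_smul, h2, smul_zero]

/-- the weight filtration -/
def wF (ι : Type) (N Θ : ℕ) : Filt (PM ι N) (Θ * N + 1) where
  F v := (wS ι N Θ v).restrictScalars ℚ
  anti := by
    intro v w hvw q hq i a b n h
    have := hq i a b n h
    omega
  mul := by
    intro v w q r hq hr i a b n h
    rw [Pi.mul_apply, Matrix.mul_apply, finsetSum_coeff] at h
    obtain ⟨c, _, hc⟩ := Finset.exists_ne_zero_of_sum_ne_zero h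
    rw [coeff_mul] at hc
    obtain ⟨⟨k, l⟩, hkl, hc⟩ := Finset.exists_ne_zero_of_sum_ne_zero hc
    rw [HasAntidiagonal.mem_antidiagonal] at hkl
    have h1 := hq i a c k (left_ne_zero_of_mul hc)
    have h2 := hr i c b l (right_ne_zero_of_mul hc)
    simp only at hkl
    omega
  bot := by
    intro q hq
    funext i
    ext a b n
    by_contra h
    have h1 := hq i a b n (by simpa using h)
    have h2 : Θ * (b : ℕ) ≤ Θ * N := Nat.mul_le_mul_left _ b.2.le
    omega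

/-- constant maps -/
def cst (ι : Type) {N : ℕ} : Matrix (Fin N) (Fin N) ℝ →ₗ[ℝ] PM ι N where
  toFun x := fun _ => x.map C
  map_add' x y := by
    funext i
    ext a b n
    simp
  map_smul' c x := by
    funext i
    ext a b n
    simp [Polynomial.smul_eq_C_mul]

/-- the product with a family of polynomials -/
def sm (P : ι → ℝ[X]) (y : PM ι N) : PM ι N := fun i => P i • y i

/-- the map `m ↦ p_i(m) x` -/
def px (p : ι → ℝ[X]) (x : Matrix (Fin N) (Fin N) ℝ) : PM ι N := sm p (cst ι x)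

/-- the map `m ↦ e^{p_i(m) D} x e^{-p_i(m) D}` -/
def EE (p : ι → ℝ[X]) (D x : Matrix (Fin N) (Fin N) ℝ) : PM ι N :=
  IsNilpotent.exp (px p D) * cst ι x * IsNilpotent.exp (-(px p D))

/-- the map `m ↦ p_i'(m) e^{p_i(m) D} x e^{-p_i(m) D}` -/
def FF (p : ι → ℝ[X]) (D x : Matrix (Fin N) (Fin N) ℝ) : PM ι N :=
  sm (fun i => derivative (p i)) (EE p D x)

/-- the derivative -/
def dd (ι : Type) (N : ℕ) : PM ι N →ₗ[ℝ] PM ι N where
  toFun y := fun i => (y i).map derivative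
  map_add' x y := by
    funext i
    ext a b n
    simp
  map_smul' c x := by
    funext i
    ext a b n
    simp

/-- the translation by `t` -/
def sh (ι : Type) (N : ℕ) (t : ℝ) : PM ι N →+* PM ι N :=
  RingHom.pi fun i => ((compRingHom (X + C t)).mapMatrix).comp (Pi.evalRingHom _ i)

/-- the value at the integer `m` -/
def ev (ι : Type) (N : ℕ) (m : ℤ) : PM ι N →+* (ι → Matrix (Fin N) (Fin N) ℝ) :=
  RingHom.pi fun i => ((evalRingHom (m : ℝ)).mapMatrix).comp (Pi.evalRingHom _ i)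

/-- The data of the problem: a Lie algebra `V` of strictly upper triangular matrices, normalized by
`D`, a matrix `v ∈ D + V`, and a set `Λ ⊆ V` of logarithms of the elements of a group that is
normalized by `exp D`. -/
structure Dt (N : ℕ) where
  V : Submodule ℝ (Matrix (Fin N) (Fin N) ℝ)
  D : Matrix (Fin N) (Fin N) ℝ
  v : Matrix (Fin N) (Fin N) ℝ
  Λ : Set (Matrix (Fin N) (Fin N) ℝ)
  supV : ∀ x ∈ V, ∀ i j, j ≤ i → x i j = 0
  supD : ∀ i j, j ≤ i → D i j = 0
  brV : ∀ x ∈ V, ∀ y ∈ V, x * y - y * x ∈ V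
  brD : ∀ x ∈ V, D * x - x * D ∈ V
  hv : v - D ∈ V
  ΛV : Λ ⊆ V
  Λzero : 0 ∈ Λ
  Λneg : ∀ y ∈ Λ, -y ∈ Λ
  Λmul : ∀ x ∈ Λ, ∀ y ∈ Λ, ∀ z ∈ V,
    IsNilpotent.exp x * IsNilpotent.exp y = IsNilpotent.exp z → z ∈ Λ
  Λconj : ∀ x ∈ Λ, IsNilpotent.exp D * x * IsNilpotent.exp (-D) ∈ Λ
  Λconj' : ∀ x ∈ Λ, IsNilpotent.exp (-D) * x * IsNilpotent.exp D ∈ Λ
  Λspan : V ≤ Submodule.span ℝ Λ

/-- Irrationality: every continuous character of `V` that is trivial on the brackets with `V` and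
`D` and on `Λ` and of finite order at `v - D` is trivial. -/
def Dt.Irr (S : Dt N) : Prop :=
  ∀ χ : S.V → Circle, Continuous χ → (∀ x y, χ (x + y) = χ x * χ y) →
    (∀ x y : S.V, χ ⟨(x : Matrix (Fin N) (Fin N) ℝ) * y - y * x, S.brV x x.2 y y.2⟩ = 1) →
    (∀ x : S.V, χ ⟨S.D * x - x * S.D, S.brD x x.2⟩ = 1) →
    (∀ y : S.V, (y : Matrix (Fin N) (Fin N) ℝ) ∈ S.Λ → χ y = 1) →
    (∃ q : ℕ, 0 < q ∧ χ ⟨S.v - S.D, S.hv⟩ ^ q = 1) → ∀ x, χ x = 1

/-- The Lie algebra of polynomial maps generated by the `EE` and `FF`. -/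
def zz (S : Dt N) (p : ι → ℝ[X]) : Submodule ℝ (PM ι N) :=
  sInf {W | (∀ x ∈ S.V, EE p S.D x ∈ W) ∧ (∀ x ∈ S.V, FF p S.D x ∈ W) ∧
    (∀ y ∈ W, ∀ z ∈ W, y * z - z * y ∈ W) ∧ (∀ z ∈ W, dd ι N z ∈ W) ∧
    (∀ z ∈ W, cst ι S.D * z - z * cst ι S.D ∈ W)}

/-- Its central series. -/
def zs (S : Dt N) (p : ι → ℝ[X]) : ℕ → Submodule ℝ (PM ι N)
  | 0 => zz S p
  | k + 1 => Submodule.span ℝ ({w | ∃ y ∈ zz S p, ∃ z ∈ zs S p k, w = y * z - z * y} ∪
      {w | ∃ z ∈ zs S p k, w = dd ι N z} ∪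
      {w | ∃ z ∈ zs S p k, w = cst ι S.D * z - z * cst ι S.D})

end

end Pool.Agent.TH142.PN
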