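import Mathlib
import Pool.Agent.TH142.PN.Defs
import Pool.Agent.TH142.PN.Agh0
import Pool.Agent.TH416.J1359
import Pool.Agent.TH111.J1372
import Pool.Agent.TH828.PN.A1
import Pool.Agent.TH576.J1507
import Pool.Agent.TH55.PN.A3

/-!
# Interface
-/

set_option autoImplicit false

namespace Pool.Agent.TH142.PN

export Pool.Agent.TH828.PN (wS_iff one_mem_wF px_apply px_mem cst_mem sm_smul_add sm_mul mul_sm
  cst_mul dd_mem dd_mul px_nilp commute_exp commute_px EE_smul_add FF_smul_add EE_sub EE_mul EE_br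
  FF_br EE_self EE_D FF_D exp_mem_wF conj_mem_wF EE_mem_wF FF_mem_wF)

export Pool.Agent.TH576.PN (EE_zz FF_zz br_zz dd_zz D_zz zz_le zs_gen br_zs br_zs' dd_zs D_zs
  zs_succ_le zs_le br_zs1 zz_form zs_le_wS wS_fin)

export Pool.Agent.TH55.PN (sh_apply ev_apply sh_eq_sum ev_sh sh_sh sh_zero sh_cst ev_cst ev_px
  ev_exp sh_exp ev_inj dd_px px_comm px_neg px_sub log_deriv)

export Pool.Agent.TH416.PN (agh)

export Pool.Agent.TH111.J1372 (shift)

end Pool.Agent.TH142.PN
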