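import Mathlib
import Pool.Agent.TH142.PN.Api

/-!
# Exponentials of the Lie algebra of polynomial maps
-/

set_option autoImplicit false

namespace Pool.Agent.TH142.PN

open Finset Polynomial Pool.Agent.TH91.RF

noncomputable section

/-- The data, a family of integer polynomials and a bound of their degrees. -/
structure Cx (ι : Type) (N : ℕ) where
  S : Dt N
  P : ι → ℤ[X]
  Θ : ℕ
  hΘ : ∀ i, (P i).natDegree < Θ
  hΘ0 : 0 < Θ

namespace Cx

variable {ι : Type} {N : ℕ} (c : Cx ι N)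

/-- the real polynomials -/
def p : ι → ℝ[X] := fun i => (c.P i).map (Int.castRingHom ℝ)

/-- the filtration -/
def W : Filt (PM ι N) (c.Θ * N + 1) := wF ι N c.Θ

/-- the Lie algebra -/
def z : Submodule ℝ (PM ι N) := zz c.S c.p

theorem p_deg (i : ι) : (c.p i).natDegree < c.Θ :=
  lt_of_le_of_lt natDegree_map_le (c.hΘ i)

theorem dd_W {v : ℕ} {x : PM ι N} (hx : x ∈ c.W.F v) : dd ι N x ∈ c.W.F (v + 1) := dd_mem hx

theorem D_W : cst ι c.S.D ∈ c.W.F 1 := cst_mem c.hΘ0 c.S.supD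

theorem EE_W {x : Matrix (Fin N) (Fin N) ℝ} (hx : x ∈ c.S.V) : EE c.p c.S.D x ∈ c.W.F 1 :=
  EE_mem_wF c.S c.p c.p_deg c.hΘ0 (c.S.supV x hx)

theorem FF_W {x : Matrix (Fin N) (Fin N) ℝ} (hx : x ∈ c.S.V) : FF c.p c.S.D x ∈ c.W.F 1 :=
  FF_mem_wF c.S c.p c.p_deg c.hΘ0 (c.S.supV x hx)

theorem zs_W (k : ℕ) {x : PM ι N} (hx : x ∈ zs c.S c.p k) : x ∈ c.W.F (k + 1) :=
  zs_le_wS c.S c.p (fun _ hx => c.EE_W hx) (fun _ hx => c.FF_W hx) c.D_W
    (fun _ _ hx => c.dd_W hx) k x hx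

theorem z_W {x : PM ι N} (hx : x ∈ c.z) : x ∈ c.W.F 1 := c.zs_W 0 hx

theorem zs_bot : zs c.S c.p (c.Θ * N) = ⊥ := by
  rw [eq_bot_iff]
  intro x hx
  exact c.W.bot x (c.zs_W _ hx)

theorem fin_zz [Finite ι] : FiniteDimensional ℝ c.z := by
  have := wS_fin (ι := ι) (N := N) c.Θ 1
  refine Submodule.finiteDimensional_of_le (S₂ := wS ι N c.Θ 1) fun x hx => ?_
  exact c.z_W hx

theorem nil {x : PM ι N} (hx : x ∈ c.z) : IsNilpotent x := c.W.nilp (c.z_W hx)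

theorem br {y z : PM ι N} (hy : y ∈ c.z) (hz : z ∈ c.z) : y * z - z * y ∈ c.z :=
  br_zz c.S c.p hy hz

theorem lat : LieLat c.W c.z.toAddSubgroup := by
  refine ⟨fun x hx => c.z_W hx, fun u hu v hv => ?_⟩
  rw [← Rat.cast_smul_eq_qsmul ℝ]
  exact c.z.smul_mem _ (c.br hu hv)

/-- `B` contains the brackets of `A` with `z` and `D`, and the derivatives. -/
def Down (A B : Submodule ℝ (PM ι N)) : Prop :=
  B ≤ A ∧ ∀ z ∈ A, (∀ y ∈ c.z, y * z - z * y ∈ B) ∧ dd ι N z ∈ B ∧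
    cst ι c.S.D * z - z * cst ι c.S.D ∈ B

theorem zs_down (k : ℕ) : c.Down (zs c.S c.p k) (zs c.S c.p (k + 1)) :=
  ⟨zs_succ_le c.S c.p k, fun _ hz => ⟨fun _ hy => br_zs c.S c.p hy hz, dd_zs c.S c.p hz,
    D_zs c.S c.p hz⟩⟩

variable {c} {A B C : Submodule ℝ (PM ι N)}

theorem Down.mono (h : c.Down A B) {B' : Submodule ℝ (PM ι N)} (h1 : B ≤ B') (h2 : B' ≤ A) :
    c.Down A B' :=
  ⟨h2, fun z hz => ⟨fun y hy => h1 ((h.2 z hz).1 y hy), h1 (h.2 z hz).2.1, h1 (h.2 z hz).2.2⟩⟩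

theorem Down.mono' (h : c.Down A B) {A' : Submodule ℝ (PM ι N)} (h1 : A' ≤ A) (h2 : B ≤ A') :
    c.Down A' B :=
  ⟨h2, fun z hz => h.2 z (h1 hz)⟩

theorem Down.self (h : c.Down A B) : c.Down A A := h.mono h.1 le_rfl

theorem Down.self' (h : c.Down A B) : c.Down B B := h.mono' h.1 le_rfl

theorem Down.idl (h : c.Down A B) (hA : A ≤ c.z) : LieIdl (c.Θ * N + 1) c.z.toAddSubgroup
    A.toAddSubgroup := by
  refine ⟨fun x hx => hA hx, fun u hu v hv => ?_⟩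
  rw [← Rat.cast_smul_eq_qsmul ℝ]
  exact A.smul_mem _ (h.1 ((h.2 v hv).1 u hu))

theorem Down.br' (h : c.Down A B) {y z : PM ι N} (hy : y ∈ c.z) (hz : z ∈ A) :
    z * y - y * z ∈ B := by
  have := B.neg_mem ((h.2 z hz).1 y hy)
  rwa [neg_sub] at this

theorem mul_add (h : c.Down A B) (hA : A ≤ c.z) {x y : PM ι N} (hx : x ∈ c.z) (hy : y ∈ A) :
    ∃ j ∈ B, IsNilpotent.exp x * IsNilpotent.exp y = IsNilpotent.exp (x + y + j) := by
  refine c.lat.exp_mul_add (h.self'.idl (h.1.trans hA)) hx (hA hy) ?_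
  rw [← Rat.cast_smul_eq_qsmul ℝ]
  exact B.smul_mem _ ((h.2 y hy).1 x hx)

/-- `exp (z + b) * exp (-z) = exp (b + j)` -/
theorem add_neg (h : c.Down B C) (hB : B ≤ c.z) {z b : PM ι N} (hz : z ∈ c.z) (hb : b ∈ B) :
    ∃ j ∈ C, IsNilpotent.exp (z + b) * IsNilpotent.exp (-z) = IsNilpotent.exp (b + j) := by
  have hzb : z + b ∈ c.z := c.z.add_mem hz (hB hb)
  obtain ⟨j, hj, h1⟩ := c.lat.exp_mul_add (h.self'.idl (h.1.trans hB)) hzb
    (c.z.neg_mem hz) (by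
      rw [← Rat.cast_smul_eq_qsmul ℝ]
      refine C.smul_mem _ ?_
      have e : (z + b) * -z - -z * (z + b) = z * b - b * z := by noncomm_ring
      rw [e]
      exact (h.2 b hb).1 z hz)
  refine ⟨j, hj, ?_⟩
  rw [h1]
  congr 1
  abel

/-- commutators -/
theorem comm_add (h : c.Down A B) (h' : c.Down B C) (hA : A ≤ c.z) {y z : PM ι N}
    (hy : y ∈ c.z) (hz : z ∈ A) :
    ∃ j ∈ C, IsNilpotent.exp y * IsNilpotent.exp z * IsNilpotent.exp (-y) *
      IsNilpotent.exp (-z) = IsNilpotent.exp (y * z - z * y + j) := by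
  have hB : B ≤ c.z := h.1.trans hA
  have hbr : y * z - z * y ∈ B := (h.2 z hz).1 y hy
  have hk : ∀ k, (adr (-y))^[k + 1] z ∈ B ∧ (adr (-y))^[k + 2] z ∈ C := by
    have e : ∀ w : PM ι N, adr (-y) w = y * w - w * y := by
      intro w
      unfold adr
      noncomm_ring
    have h0 : ∀ k, (adr (-y))^[k + 1] z ∈ B := by
      intro k
      induction k with
      | zero =>
        rw [zero_add, Function.iterate_one, e]
        exact hbr
      | succ k ih =>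
        rw [Function.iterate_succ_apply', e]
        exact h'.1 ((h'.2 _ ih).1 y hy)
    intro k
    refine ⟨h0 k, ?_⟩
    rw [Function.iterate_succ_apply', e]
    exact (h'.2 _ (h0 k)).1 y hy
  rw [c.lat.exp_conj_eq hy (hA hz)]
  obtain ⟨M, hM⟩ : ∃ M, c.Θ * N + 1 + 1 = M + 2 := ⟨c.Θ * N, rfl⟩
  rw [hM, sum_range_succ', sum_range_succ']
  simp only [Function.iterate_zero, id_eq, Nat.factorial_zero, Nat.cast_one, inv_one, one_smul,
    zero_add, Function.iterate_one, Nat.factorial_one]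
  set j1 : PM ι N := ∑ k ∈ range M, (((k + 1 + 1).factorial : ℚ))⁻¹ • (adr (-y))^[k + 1 + 1] z
    with hj1
  have hj1C : j1 ∈ C := by
    refine C.sum_mem fun k _ => ?_
    rw [← Rat.cast_smul_eq_qsmul ℝ]
    exact C.smul_mem _ (hk k).2
  have e1 : adr (-y) z = y * z - z * y := by
    unfold adr
    noncomm_ring
  rw [e1]
  obtain ⟨j, hj, h1⟩ := add_neg h' hB (hA hz) (B.add_mem (h'.1 hj1C) hbr)
  refine ⟨j1 + j, C.add_mem hj1C hj, ?_⟩
  rw [show j1 + (y * z - z * y) + z = z + (j1 + (y * z - z * y)) by abel, h1]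
  congr 1
  abel

/-- translations -/
theorem sh_add (h : c.Down A B) (h' : c.Down B C) (hA : A ≤ c.z) (t : ℝ) {z : PM ι N}
    (hz : z ∈ A) : ∃ j ∈ C, sh ι N t z = z + t • dd ι N z + j := by
  have hd : ∀ w : PM ι N, ((t • dd ι N : PM ι N →ₗ[ℝ] PM ι N).restrictScalars ℚ) w =
      t • dd ι N w := fun w => rfl
  have hk : ∀ k, (((t • dd ι N : PM ι N →ₗ[ℝ] PM ι N).restrictScalars ℚ) ^ (k + 1)) z ∈ B := by
    intro k
    induction k with
    | zero =>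
      rw [zero_add, pow_one, hd]
      exact B.smul_mem _ (h.2 z hz).2.1
    | succ k ih =>
      rw [pow_succ', Module.End.mul_apply, hd]
      exact B.smul_mem _ (h'.1 (h'.2 _ ih).2.1)
  have hk2 : ∀ k, (((t • dd ι N : PM ι N →ₗ[ℝ] PM ι N).restrictScalars ℚ) ^ (k + 1 + 1)) z ∈ C := by
    intro k
    rw [pow_succ', Module.End.mul_apply, hd]
    exact C.smul_mem _ (h'.2 _ (hk k)).2.1
  rw [sh_eq_sum (Θ := c.Θ) t (c.W.anti (Nat.zero_le _) (c.z_W (hA hz)))]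
  obtain ⟨M, hM⟩ : ∃ M, c.Θ * N + 1 + 1 = M + 2 := ⟨c.Θ * N, rfl⟩
  rw [hM, sum_range_succ', sum_range_succ']
  refine ⟨∑ k ∈ range M, (((k + 1 + 1).factorial : ℚ))⁻¹ •
    (((t • dd ι N : PM ι N →ₗ[ℝ] PM ι N).restrictScalars ℚ) ^ (k + 1 + 1)) z, ?_, ?_⟩
  · refine C.sum_mem fun k _ => ?_
    rw [← Rat.cast_smul_eq_qsmul ℝ]
    exact C.smul_mem _ (hk2 k)
  · simp only [zero_add, Nat.factorial_one, Nat.factorial_zero, Nat.cast_one, inv_one, one_smul,
      pow_one, pow_zero, Module.End.one_apply, hd]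
    abel

/-- the conjugation by `exp (s D)`, `s = 1` or `s = -1` -/
theorem conj_add (h : c.Down A B) (h' : c.Down B C) (hA : A ≤ c.z) (t : ℝ) {z : PM ι N}
    (hz : z ∈ A) : ∃ j ∈ C, IsNilpotent.exp (t • cst ι c.S.D) * z *
      IsNilpotent.exp (-(t • cst ι c.S.D)) =
        z + t • (cst ι c.S.D * z - z * cst ι c.S.D) + j := by
  have hw : t • cst ι c.S.D ∈ c.W.F 1 := (wS ι N c.Θ 1).smul_mem t c.D_W
  have hzW := c.z_W (hA hz)
  have e : ∀ w : PM ι N, adr (-(t • cst ι c.S.D)) w =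
      t • (cst ι c.S.D * w - w * cst ι c.S.D) := by
    intro w
    unfold adr
    rw [mul_neg, neg_mul, mul_smul_comm, smul_mul_assoc, smul_sub]
    abel
  have hk : ∀ k, (adr (-(t • cst ι c.S.D)))^[k + 1] z ∈ B := by
    intro k
    induction k with
    | zero =>
      rw [zero_add, Function.iterate_one, e]
      exact B.smul_mem _ (h.2 z hz).2.2
    | succ k ih =>
      rw [Function.iterate_succ_apply', e]
      exact B.smul_mem _ (h'.1 (h'.2 _ ih).2.2)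
  have hk2 : ∀ k, (adr (-(t • cst ι c.S.D)))^[k + 1 + 1] z ∈ C := by
    intro k
    rw [Function.iterate_succ_apply', e]
    exact C.smul_mem _ (h'.2 _ (hk k)).2.2
  have h1 : IsNilpotent.exp (t • cst ι c.S.D) * z * IsNilpotent.exp (-(t • cst ι c.S.D)) =
      ∑ k ∈ range (c.Θ * N + 1 + 1), ((k.factorial : ℚ))⁻¹ •
        (adr (-(t • cst ι c.S.D)))^[k] z := by
    rw [mul_assoc, c.W.mul_exp ((c.W.F 1).neg_mem hw) hzW, ← mul_assoc,
      IsNilpotent.exp_mul_exp_neg_self (c.W.nilp hw), one_mul]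
  rw [h1]
  obtain ⟨M, hM⟩ : ∃ M, c.Θ * N + 1 + 1 = M + 2 := ⟨c.Θ * N, rfl⟩
  rw [hM, sum_range_succ', sum_range_succ']
  refine ⟨∑ k ∈ range M, (((k + 1 + 1).factorial : ℚ))⁻¹ •
    (adr (-(t • cst ι c.S.D)))^[k + 1 + 1] z, ?_, ?_⟩
  · refine C.sum_mem fun k _ => ?_
    rw [← Rat.cast_smul_eq_qsmul ℝ]
    exact C.smul_mem _ (hk2 k)
  · simp only [zero_add, Nat.factorial_one, Nat.factorial_zero, Nat.cast_one, inv_one, one_smul,
      Function.iterate_zero, id_eq, Function.iterate_one, e]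
    abel

end Cx

end

end Pool.Agent.TH142.PN
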