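import Mathlib
import Pool.Agent.TH142.PN.Cx
import Pool.Agent.TH73.J887

/-!
# The group of polynomial maps
-/

set_option autoImplicit false

namespace Pool.Agent.TH142.PN

open Finset Polynomial Pool.Agent.TH91.RF Topology

noncomputable section

namespace Cx

variable {ι : Type} {N : ℕ} (c : Cx ι N)

/-- the group -/
def G : Subgroup (PM ι N)ˣ where
  carrier := {u | ∃ z ∈ c.z, (u : PM ι N) = IsNilpotent.exp z}
  mul_mem' := by
    rintro u v ⟨y, hy, h1⟩ ⟨z, hz, h2⟩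
    obtain ⟨w, hw, h⟩ := c.lat.exp_mul hy hz
    exact ⟨w, hw, by rw [Units.val_mul, h1, h2, h]⟩
  one_mem' := ⟨0, c.z.zero_mem, by rw [Units.val_one, IsNilpotent.exp_zero]⟩
  inv_mem' := by
    rintro u ⟨z, hz, h⟩
    refine ⟨-z, c.z.neg_mem hz, ?_⟩
    refine Units.inv_eq_of_mul_eq_one_right ?_
    rw [h, IsNilpotent.exp_mul_exp_neg_self (c.nil hz)]

/-- the exponential -/
def ex (z : PM ι N) (hz : z ∈ c.z) : c.G :=
  ⟨⟨IsNilpotent.exp z, IsNilpotent.exp (-z), IsNilpotent.exp_mul_exp_neg_self (c.nil hz),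
    IsNilpotent.exp_neg_mul_exp_self (c.nil hz)⟩, z, hz, rfl⟩

theorem ex_val (z : PM ι N) (hz : z ∈ c.z) : ((c.ex z hz).1 : PM ι N) = IsNilpotent.exp z := rfl

theorem ex_inv (z : PM ι N) (hz : z ∈ c.z) : (c.ex z hz)⁻¹ = c.ex (-z) (c.z.neg_mem hz) := by
  apply Subtype.ext
  apply Units.ext
  rfl

theorem exists_ex (u : c.G) : ∃ z, ∃ hz : z ∈ c.z, u = c.ex z hz := by
  obtain ⟨z, hz, h⟩ := u.2
  exact ⟨z, hz, Subtype.ext (Units.ext h)⟩

theorem ex_inj {y z : PM ι N} {hy : y ∈ c.z} {hz : z ∈ c.z} (h : c.ex y hy = c.ex z hz) :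
    y = z := by
  refine c.W.exp_inj (c.z_W hy) (c.z_W hz) ?_
  rw [← c.ex_val y hy, h, c.ex_val]

theorem ext_val {u v : c.G} (h : (u.1 : PM ι N) = v.1) : u = v := Subtype.ext (Units.ext h)

theorem ex_congr {y z : PM ι N} (hy : y ∈ c.z) (h : y = z) :
    c.ex y hy = c.ex z (h ▸ hy) := by
  subst h
  rfl

theorem ex_zero : c.ex 0 c.z.zero_mem = 1 := by
  apply c.ext_val
  rw [ex_val, IsNilpotent.exp_zero]
  rfl

/-- the evaluation homomorphism -/
def Ev : c.G →* (ℤ → ι → Matrix (Fin N) (Fin N) ℝ)ˣ :=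
  (Units.map (RingHom.pi fun m : ℤ => ev ι N m).toMonoidHom).comp c.G.subtype

instance top : TopologicalSpace c.G := TopologicalSpace.induced c.Ev inferInstance

instance topGroup : IsTopologicalGroup c.G := topologicalGroup_induced c.Ev

theorem continuous_iff {X : Type*} [TopologicalSpace X] {f : X → c.G} :
    Continuous f ↔ (∀ m i, Continuous fun x => ev ι N m (((f x).1 : (PM ι N)ˣ) : PM ι N) i) ∧
      ∀ m i, Continuous fun x => ev ι N m ((((f x).1)⁻¹ : (PM ι N)ˣ) : PM ι N) i := by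
  rw [continuous_induced_rng, Units.continuous_iff]
  constructor
  · rintro ⟨h1, h2⟩
    exact ⟨fun m i => (continuous_apply i).comp ((continuous_apply m).comp h1),
      fun m i => (continuous_apply i).comp ((continuous_apply m).comp h2)⟩
  · rintro ⟨h1, h2⟩
    exact ⟨continuous_pi fun m => continuous_pi fun i => h1 m i,
      continuous_pi fun m => continuous_pi fun i => h2 m i⟩

theorem continuous_ev (m : ℤ) (i : ι) : Continuous fun u : c.G => ev ι N m (u.1 : PM ι N) i :=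
  (c.continuous_iff.1 continuous_id).1 m i

theorem continuous_ev' (m : ℤ) (i : ι) :
    Continuous fun u : c.G => ev ι N m ((u.1⁻¹ : (PM ι N)ˣ) : PM ι N) i :=
  (c.continuous_iff.1 continuous_id).2 m i

theorem ev_sup {x : PM ι N} (hx : x ∈ c.W.F 1) (m : ℤ) (i : ι) (a b : Fin N) (hab : b ≤ a) :
    ev ι N m x i a b = 0 := by
  rw [ev_apply]
  have h : x i a b = 0 := by
    ext n
    by_contra h
    have h1 := hx i a b n (by simpa using h)
    have h2 : c.Θ * (b : ℕ) ≤ c.Θ * a := Nat.mul_le_mul_left _ hab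
    omega
  rw [h, eval_zero]

theorem ev_F {x : PM ι N} (hx : x ∈ c.W.F 1) (m : ℤ) (i : ι) :
    ev ι N m x i ∈ (Pool.Agent.TH91.NB.J887.matFiltR N).F 1 :=
  Pool.Agent.TH91.NB.J887.sup_iff.1 fun a b hab => c.ev_sup hx m i a b hab

theorem ev_smul (m : ℤ) (t : ℝ) (x : PM ι N) (i : ι) :
    ev ι N m (t • x) i = t • ev ι N m x i := by
  ext a b
  rw [ev_apply, Matrix.smul_apply, ev_apply, Pi.smul_apply, Matrix.smul_apply,
    Polynomial.eval_smul]

/-- continuity of exponentials -/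
theorem continuous_ex {X : Type*} [TopologicalSpace X] {f : X → PM ι N} (hf : ∀ x, f x ∈ c.z)
    (hc : ∀ m i, Continuous fun x => ev ι N m (f x) i) :
    Continuous fun x => c.ex (f x) (hf x) := by
  have key : ∀ g : X → PM ι N, (∀ x, g x ∈ c.z) → (∀ m i, Continuous fun x => ev ι N m (g x) i) →
      ∀ m i, Continuous fun x => ev ι N m (IsNilpotent.exp (g x)) i := by
    intro g hg hgc m i
    have e : (fun x => ev ι N m (IsNilpotent.exp (g x)) i) =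
        fun x => Pool.Agent.TH91.NB.J887.Ex N (ev ι N m (g x) i) := by
      funext x
      rw [ev_exp m (c.nil (hg x)), (Pool.Agent.TH91.NB.J887.matFiltR N).exp_eq
        (c.ev_F (c.z_W (hg x)) m i)]
      rfl
    rw [e]
    exact Pool.Agent.TH91.NB.J887.Ex_continuous.comp (hgc m i)
  rw [c.continuous_iff]
  refine ⟨fun m i => key f hf hc m i, fun m i => ?_⟩
  refine key (fun x => -f x) (fun x => c.z.neg_mem (hf x)) (fun m i => ?_) m i
  have e : (fun x => ev ι N m (-f x) i) = fun x => -(ev ι N m (f x) i) := by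
    funext x
    rw [map_neg]
    rfl
  rw [e]
  exact (hc m i).neg

theorem V_lat : LieLat (Pool.Agent.TH91.NB.J887.matFiltR N) c.S.V.toAddSubgroup := by
  refine ⟨fun x hx => Pool.Agent.TH91.NB.J887.sup_iff.1 (c.S.supV x hx), fun u hu v hv => ?_⟩
  rw [← Rat.cast_smul_eq_qsmul ℝ]
  exact c.S.V.smul_mem _ (c.S.brV u hu v hv)

theorem exp_val_inv {x : Matrix (Fin N) (Fin N) ℝ}
    (hx : x ∈ (Pool.Agent.TH91.NB.J887.matFiltR N).F 1) {y : Matrix (Fin N) (Fin N) ℝ}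
    (h : IsNilpotent.exp x * y = 1) : y = IsNilpotent.exp (-x) := by
  have h1 := IsNilpotent.exp_neg_mul_exp_self
    ((Pool.Agent.TH91.NB.J887.matFiltR N).nilp hx)
  calc y = IsNilpotent.exp (-x) * IsNilpotent.exp x * y := by rw [h1, one_mul]
    _ = IsNilpotent.exp (-x) := by rw [mul_assoc, h, mul_one]

/-- the discrete subgroup -/
def Γ : Subgroup c.G where
  carrier := {u | ∀ m i, ∃ y ∈ c.S.Λ, ev ι N m (u.1 : PM ι N) i = IsNilpotent.exp y}
  mul_mem' := by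
    intro u v hu hv m i
    obtain ⟨x, hx, h1⟩ := hu m i
    obtain ⟨y, hy, h2⟩ := hv m i
    obtain ⟨z, hz, h⟩ := c.V_lat.exp_mul (c.S.ΛV hx) (c.S.ΛV hy)
    refine ⟨z, c.S.Λmul x hx y hy z hz h, ?_⟩
    change ev ι N m ((u.1 : PM ι N) * (v.1 : PM ι N)) i = _
    rw [map_mul, Pi.mul_apply, h1, h2, h]
  one_mem' := by
    intro m i
    refine ⟨0, c.S.Λzero, ?_⟩
    change ev ι N m 1 i = _
    rw [map_one, IsNilpotent.exp_zero]
    rfl
  inv_mem' := by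
    intro u hu m i
    obtain ⟨x, hx, h1⟩ := hu m i
    refine ⟨-x, c.S.Λneg x hx, ?_⟩
    refine exp_val_inv (c.V_lat.le x (c.S.ΛV hx)) ?_
    rw [← h1]
    change (ev ι N m (u.1 : PM ι N) * ev ι N m ((u.1⁻¹ : (PM ι N)ˣ) : PM ι N)) i = 1
    rw [← map_mul, Units.mul_inv, map_one]
    rfl

theorem mem_Γ {u : c.G} :
    u ∈ c.Γ ↔ ∀ m i, ∃ y ∈ c.S.Λ, ev ι N m (u.1 : PM ι N) i = IsNilpotent.exp y := Iff.rfl

theorem sh_z (t : ℝ) {z : PM ι N} (hz : z ∈ c.z) : sh ι N t z ∈ c.z := by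
  obtain ⟨j, hj, h⟩ := sh_add (c.zs_down 0).self (c.zs_down 0).self le_rfl t hz
  rw [h]
  exact c.z.add_mem (c.z.add_mem hz (c.z.smul_mem _ (dd_zz c.S c.p hz))) hj

/-- the translation on the group -/
def shG (n : ℤ) : c.G ≃* c.G where
  toFun u := ⟨Units.map (sh ι N (n : ℝ)).toMonoidHom u.1, by
    obtain ⟨z, hz, h⟩ := u.2
    refine ⟨sh ι N n z, c.sh_z n hz, ?_⟩
    change sh ι N n (u.1 : PM ι N) = _
    rw [h, sh_exp _ (c.nil hz)]⟩
  invFun u := ⟨Units.map (sh ι N ((-n : ℤ) : ℝ)).toMonoidHom u.1, by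
    obtain ⟨z, hz, h⟩ := u.2
    refine ⟨sh ι N ((-n : ℤ) : ℝ) z, c.sh_z _ hz, ?_⟩
    change sh ι N ((-n : ℤ) : ℝ) (u.1 : PM ι N) = _
    rw [h, sh_exp _ (c.nil hz)]⟩
  left_inv u := by
    apply c.ext_val
    change sh ι N ((-n : ℤ) : ℝ) (sh ι N (n : ℝ) (u.1 : PM ι N)) = _
    rw [sh_sh, ← Int.cast_add, neg_add_cancel, Int.cast_zero, sh_zero]
  right_inv u := by
    apply c.ext_val
    change sh ι N (n : ℝ) (sh ι N ((-n : ℤ) : ℝ) (u.1 : PM ι N)) = _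
    rw [sh_sh, ← Int.cast_add, add_neg_cancel, Int.cast_zero, sh_zero]
  map_mul' u v := by
    apply c.ext_val
    change sh ι N _ ((u.1 : PM ι N) * (v.1 : PM ι N)) = _
    rw [map_mul]
    rfl

theorem shG_val (n : ℤ) (u : c.G) : ((c.shG n u).1 : PM ι N) = sh ι N n (u.1 : PM ι N) := rfl

theorem shG_symm_val (n : ℤ) (u : c.G) :
    (((c.shG n).symm u).1 : PM ι N) = sh ι N ((-n : ℤ) : ℝ) (u.1 : PM ι N) := rfl

theorem shG_inv_val (n : ℤ) (u : c.G) :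
    ((((c.shG n u).1)⁻¹ : (PM ι N)ˣ) : PM ι N) = sh ι N n ((u.1⁻¹ : (PM ι N)ˣ) : PM ι N) := rfl

theorem shG_continuous (n : ℤ) : Continuous (c.shG n) := by
  rw [c.continuous_iff]
  refine ⟨fun m i => ?_, fun m i => ?_⟩
  · simp only [shG_val, ev_sh]
    exact c.continuous_ev (m + n) i
  · simp only [shG_inv_val, ev_sh]
    exact c.continuous_ev' (m + n) i

theorem shG_Γ (n : ℤ) {γ : c.G} (hγ : γ ∈ c.Γ) : c.shG n γ ∈ c.Γ := by
  intro m i
  rw [shG_val, ev_sh]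
  exact hγ (m + n) i

/-- the unit `exp D` -/
def eD : (PM ι N)ˣ :=
  ⟨IsNilpotent.exp (cst ι c.S.D), IsNilpotent.exp (-cst ι c.S.D),
    IsNilpotent.exp_mul_exp_neg_self (c.W.nilp c.D_W),
    IsNilpotent.exp_neg_mul_exp_self (c.W.nilp c.D_W)⟩

theorem eD_val : (c.eD : PM ι N) = IsNilpotent.exp (cst ι c.S.D) := rfl

theorem eD_inv_val : ((c.eD⁻¹ : (PM ι N)ˣ) : PM ι N) = IsNilpotent.exp (-cst ι c.S.D) := rfl

theorem conj_z {z : PM ι N} (hz : z ∈ c.z) :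
    IsNilpotent.exp (cst ι c.S.D) * z * IsNilpotent.exp (-cst ι c.S.D) ∈ c.z := by
  obtain ⟨j, hj, h⟩ := conj_add (c.zs_down 0).self (c.zs_down 0).self le_rfl 1 hz
  rw [one_smul, one_smul] at h
  rw [h]
  exact c.z.add_mem (c.z.add_mem hz (D_zz c.S c.p hz)) hj

theorem conj_z' {z : PM ι N} (hz : z ∈ c.z) :
    IsNilpotent.exp (-cst ι c.S.D) * z * IsNilpotent.exp (cst ι c.S.D) ∈ c.z := by
  obtain ⟨j, hj, h⟩ := conj_add (c.zs_down 0).self (c.zs_down 0).self le_rfl (-1) hz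
  rw [neg_smul, one_smul, neg_smul, one_smul, neg_neg] at h
  rw [h]
  exact c.z.add_mem (c.z.add_mem hz (c.z.neg_mem (D_zz c.S c.p hz))) hj

theorem exp_conj_val {z : PM ι N} (hz : z ∈ c.z) :
    IsNilpotent.exp (IsNilpotent.exp (cst ι c.S.D) * z * IsNilpotent.exp (-cst ι c.S.D)) =
      IsNilpotent.exp (cst ι c.S.D) * IsNilpotent.exp z * IsNilpotent.exp (-cst ι c.S.D) :=
  exp_conj (IsNilpotent.exp_mul_exp_neg_self (c.W.nilp c.D_W))
    (IsNilpotent.exp_neg_mul_exp_self (c.W.nilp c.D_W)) (c.nil hz)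

theorem exp_conj_val' {z : PM ι N} (hz : z ∈ c.z) :
    IsNilpotent.exp (IsNilpotent.exp (-cst ι c.S.D) * z * IsNilpotent.exp (cst ι c.S.D)) =
      IsNilpotent.exp (-cst ι c.S.D) * IsNilpotent.exp z * IsNilpotent.exp (cst ι c.S.D) :=
  exp_conj (IsNilpotent.exp_neg_mul_exp_self (c.W.nilp c.D_W))
    (IsNilpotent.exp_mul_exp_neg_self (c.W.nilp c.D_W)) (c.nil hz)

/-- the conjugation by `exp D` on the group -/
def sG : c.G ≃* c.G where
  toFun u := ⟨c.eD * u.1 * c.eD⁻¹, by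
    obtain ⟨z, hz, h⟩ := u.2
    refine ⟨_, c.conj_z hz, ?_⟩
    rw [c.exp_conj_val hz, Units.val_mul, Units.val_mul, h]
    rfl⟩
  invFun u := ⟨c.eD⁻¹ * u.1 * c.eD, by
    obtain ⟨z, hz, h⟩ := u.2
    refine ⟨_, c.conj_z' hz, ?_⟩
    rw [c.exp_conj_val' hz, Units.val_mul, Units.val_mul, h]
    rfl⟩
  left_inv u := by
    apply Subtype.ext
    change c.eD⁻¹ * (c.eD * u.1 * c.eD⁻¹) * c.eD = _
    group
  right_inv u := by
    apply Subtype.ext
    change c.eD * (c.eD⁻¹ * u.1 * c.eD) * c.eD⁻¹ = _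
    group
  map_mul' u v := by
    apply Subtype.ext
    change c.eD * (u.1 * v.1) * c.eD⁻¹ = (c.eD * u.1 * c.eD⁻¹) * (c.eD * v.1 * c.eD⁻¹)
    group

theorem sG_val (u : c.G) : (c.sG u).1 = c.eD * u.1 * c.eD⁻¹ := rfl

theorem sG_symm_val (u : c.G) : (c.sG.symm u).1 = c.eD⁻¹ * u.1 * c.eD := rfl

theorem sG_continuous : Continuous c.sG := by
  rw [c.continuous_iff]
  refine ⟨fun m i => ?_, fun m i => ?_⟩
  · have e : (fun u : c.G => ev ι N m ((c.sG u).1 : PM ι N) i) = fun u =>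
        ev ι N m (c.eD : PM ι N) i * ev ι N m (u.1 : PM ι N) i *
          ev ι N m ((c.eD⁻¹ : (PM ι N)ˣ) : PM ι N) i := by
      funext u
      rw [sG_val, Units.val_mul, Units.val_mul, map_mul, map_mul]
      rfl
    rw [e]
    exact (continuous_const.mul (c.continuous_ev m i)).mul continuous_const
  · have e : (fun u : c.G => ev ι N m ((((c.sG u).1)⁻¹ : (PM ι N)ˣ) : PM ι N) i) = fun u =>
        ev ι N m (c.eD : PM ι N) i * ev ι N m ((u.1⁻¹ : (PM ι N)ˣ) : PM ι N) i *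
          ev ι N m ((c.eD⁻¹ : (PM ι N)ˣ) : PM ι N) i := by
      funext u
      have e2 : ((c.sG u).1)⁻¹ = c.eD * u.1⁻¹ * c.eD⁻¹ := by
        rw [sG_val]
        group
      rw [e2, Units.val_mul, Units.val_mul, map_mul, map_mul]
      rfl
    rw [e]
    exact (continuous_const.mul (c.continuous_ev' m i)).mul continuous_const

theorem ev_eD (m : ℤ) (i : ι) : ev ι N m (c.eD : PM ι N) i = IsNilpotent.exp c.S.D := by
  rw [eD_val, ev_exp _ (c.W.nilp c.D_W), ev_cst]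

theorem ev_eD' (m : ℤ) (i : ι) :
    ev ι N m ((c.eD⁻¹ : (PM ι N)ˣ) : PM ι N) i = IsNilpotent.exp (-c.S.D) := by
  rw [eD_inv_val, ev_exp _ (c.W.nilp c.D_W).neg, ← map_neg, ev_cst]

theorem D_F : c.S.D ∈ (Pool.Agent.TH91.NB.J887.matFiltR N).F 1 :=
  Pool.Agent.TH91.NB.J887.sup_iff.1 c.S.supD

theorem D_nil : IsNilpotent c.S.D := (Pool.Agent.TH91.NB.J887.matFiltR N).nilp c.D_F

theorem Λ_F {y : Matrix (Fin N) (Fin N) ℝ} (hy : y ∈ c.S.Λ) :
    y ∈ (Pool.Agent.TH91.NB.J887.matFiltR N).F 1 := c.V_lat.le y (c.S.ΛV hy)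

theorem Λ_nil {y : Matrix (Fin N) (Fin N) ℝ} (hy : y ∈ c.S.Λ) : IsNilpotent y :=
  (Pool.Agent.TH91.NB.J887.matFiltR N).nilp (c.Λ_F hy)

theorem sG_Γ {γ : c.G} (hγ : γ ∈ c.Γ) : c.sG γ ∈ c.Γ := by
  intro m i
  obtain ⟨y, hy, h⟩ := hγ m i
  refine ⟨_, c.S.Λconj y hy, ?_⟩
  rw [exp_conj (IsNilpotent.exp_mul_exp_neg_self c.D_nil)
    (IsNilpotent.exp_neg_mul_exp_self c.D_nil) (c.Λ_nil hy), sG_val, Units.val_mul,
    Units.val_mul, map_mul, map_mul, Pi.mul_apply, Pi.mul_apply, h, ev_eD, ev_eD']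

end Cx

end

end Pool.Agent.TH142.PN
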