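import Mathlib
import Pool.Agent.TH142.PN.Grp

/-!
# Elements of the group of polynomial maps
-/

set_option autoImplicit false

namespace Pool.Agent.TH142.PN

open Finset Polynomial Pool.Agent.TH91.RF Topology

noncomputable section

namespace Cx

variable {ι : Type} {N : ℕ} (c : Cx ι N)



/-! ### The Lie algebra `V + ℝ D` -/

/-- the span of the brackets -/
def B1 : Submodule ℝ (Matrix (Fin N) (Fin N) ℝ) :=
  Submodule.span ℝ ({w | ∃ x ∈ c.S.V, ∃ y ∈ c.S.V, w = x * y - y * x} ∪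
    {w | ∃ x ∈ c.S.V, w = c.S.D * x - x * c.S.D})

/-- the Lie algebra `V + ℝ D` -/
def T1 : Submodule ℝ (Matrix (Fin N) (Fin N) ℝ) := c.S.V ⊔ Submodule.span ℝ {c.S.D}

theorem mem_T1 {x : Matrix (Fin N) (Fin N) ℝ} :
    x ∈ c.T1 ↔ ∃ y ∈ c.S.V, ∃ t : ℝ, x = y + t • c.S.D := by
  unfold T1
  rw [Submodule.mem_sup]
  constructor
  · rintro ⟨y, hy, z, hz, rfl⟩
    obtain ⟨t, rfl⟩ := Submodule.mem_span_singleton.1 hz
    exact ⟨y, hy, t, rfl⟩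
  · rintro ⟨y, hy, t, rfl⟩
    exact ⟨y, hy, _, Submodule.mem_span_singleton.2 ⟨t, rfl⟩, rfl⟩

theorem V_le_T1 {x : Matrix (Fin N) (Fin N) ℝ} (hx : x ∈ c.S.V) : x ∈ c.T1 :=
  c.mem_T1.2 ⟨x, hx, 0, by rw [zero_smul, add_zero]⟩

theorem D_T1 : c.S.D ∈ c.T1 :=
  c.mem_T1.2 ⟨0, c.S.V.zero_mem, 1, by rw [one_smul, zero_add]⟩

theorem v_T1 {v : Matrix (Fin N) (Fin N) ℝ} (hv : v - c.S.D ∈ c.S.V) : v ∈ c.T1 :=
  c.mem_T1.2 ⟨v - c.S.D, hv, 1, by rw [one_smul, sub_add_cancel]⟩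

theorem B1_le : c.B1 ≤ c.S.V := by
  unfold B1
  rw [Submodule.span_le]
  rintro w (⟨x, hx, y, hy, rfl⟩ | ⟨x, hx, rfl⟩)
  · exact c.S.brV x hx y hy
  · exact c.S.brD x hx

theorem B1_V {x y : Matrix (Fin N) (Fin N) ℝ} (hx : x ∈ c.S.V) (hy : y ∈ c.S.V) :
    x * y - y * x ∈ c.B1 := Submodule.subset_span (Or.inl ⟨x, hx, y, hy, rfl⟩)

theorem B1_D {x : Matrix (Fin N) (Fin N) ℝ} (hx : x ∈ c.S.V) :
    c.S.D * x - x * c.S.D ∈ c.B1 := Submodule.subset_span (Or.inr ⟨x, hx, rfl⟩)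

theorem T1_br {x y : Matrix (Fin N) (Fin N) ℝ} (hx : x ∈ c.T1) (hy : y ∈ c.T1) :
    x * y - y * x ∈ c.B1 := by
  obtain ⟨a, ha, s, rfl⟩ := c.mem_T1.1 hx
  obtain ⟨b, hb, t, rfl⟩ := c.mem_T1.1 hy
  have e : (a + s • c.S.D) * (b + t • c.S.D) - (b + t • c.S.D) * (a + s • c.S.D) =
      (a * b - b * a) + s • (c.S.D * b - b * c.S.D) - t • (c.S.D * a - a * c.S.D) := by
    simp only [_root_.add_mul, _root_.mul_add, smul_mul_assoc, mul_smul_comm, smul_sub, smul_add]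
    rw [smul_comm s t]
    abel
  rw [e]
  exact c.B1.sub_mem (c.B1.add_mem (c.B1_V ha hb) (c.B1.smul_mem _ (c.B1_D hb)))
    (c.B1.smul_mem _ (c.B1_D ha))

theorem T1_F {x : Matrix (Fin N) (Fin N) ℝ} (hx : x ∈ c.T1) : x ∈ (Pool.Agent.TH91.NB.J887.matFiltR N).F 1 := by
  obtain ⟨a, ha, s, rfl⟩ := c.mem_T1.1 hx
  exact Submodule.add_mem _ (c.V_lat.le a ha)
    ((Pool.Agent.TH91.NB.J887.FR N 1).smul_mem s c.D_F)

theorem T1_sup {x : Matrix (Fin N) (Fin N) ℝ} (hx : x ∈ c.T1) : ∀ i j, j ≤ i → x i j = 0 :=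
  Pool.Agent.TH91.NB.J887.sup_iff.2 (c.T1_F hx)

theorem T1_nil {x : Matrix (Fin N) (Fin N) ℝ} (hx : x ∈ c.T1) : IsNilpotent x :=
  (Pool.Agent.TH91.NB.J887.matFiltR N).nilp (c.T1_F hx)

theorem T1_lat : LieLat (Pool.Agent.TH91.NB.J887.matFiltR N) c.T1.toAddSubgroup := by
  refine ⟨fun x hx => c.T1_F hx, fun u hu v hv => ?_⟩
  rw [← Rat.cast_smul_eq_qsmul ℝ]
  exact c.T1.smul_mem _ (c.V_le_T1 (c.B1_le (c.T1_br hu hv)))

theorem B1_idl : LieIdl N c.T1.toAddSubgroup c.B1.toAddSubgroup := by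
  refine ⟨fun x hx => c.V_le_T1 (c.B1_le hx), fun u hu v hv => ?_⟩
  rw [← Rat.cast_smul_eq_qsmul ℝ]
  exact c.B1.smul_mem _ (c.T1_br hu (c.V_le_T1 (c.B1_le hv)))

theorem T1_mul {x y : Matrix (Fin N) (Fin N) ℝ} (hx : x ∈ c.T1) (hy : y ∈ c.T1) :
    ∃ j ∈ c.B1, IsNilpotent.exp x * IsNilpotent.exp y = IsNilpotent.exp (x + y + j) := by
  refine c.T1_lat.exp_mul_add c.B1_idl hx hy ?_
  rw [← Rat.cast_smul_eq_qsmul ℝ]
  exact c.B1.smul_mem _ (c.T1_br hx hy)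

theorem EE_zero : EE c.p c.S.D 0 = 0 := by
  unfold EE
  rw [map_zero, mul_zero, zero_mul]

theorem FF_zero : FF c.p c.S.D 0 = 0 := by
  unfold FF
  rw [EE_zero]
  funext i
  exact smul_zero _

theorem EE_add (x y : Matrix (Fin N) (Fin N) ℝ) :
    EE c.p c.S.D (x + y) = EE c.p c.S.D x + EE c.p c.S.D y := by
  have := EE_smul_add c.S c.p 1 x y
  rwa [one_smul, one_smul] at this

theorem FF_add (x y : Matrix (Fin N) (Fin N) ℝ) :
    FF c.p c.S.D (x + y) = FF c.p c.S.D x + FF c.p c.S.D y := by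
  have := FF_smul_add c.S c.p 1 x y
  rwa [one_smul, one_smul] at this

theorem EE_smul (t : ℝ) (x : Matrix (Fin N) (Fin N) ℝ) :
    EE c.p c.S.D (t • x) = t • EE c.p c.S.D x := by
  have := EE_smul_add c.S c.p t x 0
  rwa [add_zero, EE_zero, add_zero] at this

theorem FF_smul (t : ℝ) (x : Matrix (Fin N) (Fin N) ℝ) :
    FF c.p c.S.D (t • x) = t • FF c.p c.S.D x := by
  have := FF_smul_add c.S c.p t x 0
  rwa [add_zero, FF_zero, add_zero] at this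

theorem EE_B1 {x : Matrix (Fin N) (Fin N) ℝ} (hx : x ∈ c.B1) :
    EE c.p c.S.D x ∈ zs c.S c.p 1 := by
  unfold B1 at hx
  induction hx using Submodule.span_induction with
  | mem w hw =>
    rcases hw with ⟨x, hx, y, hy, rfl⟩ | ⟨x, hx, rfl⟩
    · rw [EE_br]
      exact br_zs c.S c.p (k := 0) (EE_zz c.S c.p hx) (EE_zz c.S c.p hy)
    · rw [EE_D]
      exact D_zs c.S c.p (k := 0) (EE_zz c.S c.p hx)
  | zero => rw [EE_zero]; exact Submodule.zero_mem _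
  | add a b _ _ ha hb => rw [EE_add]; exact Submodule.add_mem _ ha hb
  | smul t a _ ha => rw [EE_smul]; exact Submodule.smul_mem _ _ ha

theorem FF_B1 {x : Matrix (Fin N) (Fin N) ℝ} (hx : x ∈ c.B1) :
    FF c.p c.S.D x ∈ zs c.S c.p 1 := by
  unfold B1 at hx
  induction hx using Submodule.span_induction with
  | mem w hw =>
    rcases hw with ⟨x, hx, y, hy, rfl⟩ | ⟨x, hx, rfl⟩
    · rw [FF_br]
      exact br_zs c.S c.p (k := 0) (FF_zz c.S c.p hx) (EE_zz c.S c.p hy)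
    · rw [FF_D]
      exact D_zs c.S c.p (k := 0) (FF_zz c.S c.p hx)
  | zero => rw [FF_zero]; exact Submodule.zero_mem _
  | add a b _ _ ha hb => rw [FF_add]; exact Submodule.add_mem _ ha hb
  | smul t a _ ha => rw [FF_smul]; exact Submodule.smul_mem _ _ ha

/-! ### The polynomial maps `e^{p v} e^{-p D}` -/

theorem pv_W {v : Matrix (Fin N) (Fin N) ℝ} (hv : v ∈ c.T1) : px c.p v ∈ c.W.F 1 :=
  px_mem c.p_deg (c.T1_sup hv)

theorem pv_nil {v : Matrix (Fin N) (Fin N) ℝ} (hv : v ∈ c.T1) : IsNilpotent (px c.p v) :=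
  c.W.nilp (c.pv_W hv)

/-- `e^{p v}` -/
def epv (v : Matrix (Fin N) (Fin N) ℝ) (hv : v ∈ c.T1) : (PM ι N)ˣ :=
  ⟨IsNilpotent.exp (px c.p v), IsNilpotent.exp (-(px c.p v)),
    IsNilpotent.exp_mul_exp_neg_self (c.pv_nil hv),
    IsNilpotent.exp_neg_mul_exp_self (c.pv_nil hv)⟩

/-- `e^{p v} e^{-p D}` -/
def Ph (v : Matrix (Fin N) (Fin N) ℝ) (hv : v ∈ c.T1) : (PM ι N)ˣ :=
  c.epv v hv * (c.epv c.S.D c.D_T1)⁻¹

theorem Ph_val (v : Matrix (Fin N) (Fin N) ℝ) (hv : v ∈ c.T1) :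
    ((c.Ph v hv : (PM ι N)ˣ) : PM ι N) =
      IsNilpotent.exp (px c.p v) * IsNilpotent.exp (-(px c.p c.S.D)) := rfl

theorem Ph_inv_val (v : Matrix (Fin N) (Fin N) ℝ) (hv : v ∈ c.T1) :
    (((c.Ph v hv)⁻¹ : (PM ι N)ˣ) : PM ι N) =
      IsNilpotent.exp (px c.p c.S.D) * IsNilpotent.exp (-(px c.p v)) := by
  unfold Ph
  rw [mul_inv_rev, inv_inv]
  rfl

theorem Ph_W (v : Matrix (Fin N) (Fin N) ℝ) (hv : v ∈ c.T1) :
    ((c.Ph v hv : (PM ι N)ˣ) : PM ι N) - 1 ∈ c.W.F 1 := by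
  rw [Ph_val]
  exact c.W.one_add_mul_mem (c.W.exp_sub_one_mem (c.pv_W hv))
    (c.W.exp_sub_one_mem (Submodule.neg_mem _ (c.pv_W c.D_T1)))

theorem uu_aux (v : Matrix (Fin N) (Fin N) ℝ) (hv : v - c.S.D ∈ c.S.V) (n : ℤ) :
    ∃ j ∈ zs c.S c.p 1, (((c.Ph v (c.v_T1 hv))⁻¹ : (PM ι N)ˣ) : PM ι N) *
      sh ι N n ((c.Ph v (c.v_T1 hv) : (PM ι N)ˣ) : PM ι N) =
        IsNilpotent.exp ((n : ℝ) • FF c.p c.S.D (v - c.S.D) + j) := by
  set w : PM ι N := ((c.Ph v (c.v_T1 hv) : (PM ι N)ˣ) : PM ι N) with hw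
  set w' : PM ι N := (((c.Ph v (c.v_T1 hv))⁻¹ : (PM ι N)ˣ) : PM ι N) with hw'
  have h1 : (1 : PM ι N) ∈ c.W.F 0 := one_mem_wF c.Θ
  have hwW := c.Ph_W v (c.v_T1 hv)
  rw [← hw] at hwW
  have hw0 : w ∈ c.W.F 0 := by
    have h2 := Submodule.add_mem _ (c.W.anti (Nat.zero_le 1) hwW) h1
    rwa [sub_add_cancel] at h2
  have hlog : w' * dd ι N w = FF c.p c.S.D (v - c.S.D) := by
    rw [hw, hw', Ph_val, Ph_inv_val]
    exact log_deriv c.p_deg c.hΘ0 (c.T1_sup (c.v_T1 hv)) c.S.supD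
  set δ : PM ι N →ₗ[ℚ] PM ι N := (((n : ℝ) • dd ι N : PM ι N →ₗ[ℝ] PM ι N).restrictScalars ℚ)
    with hδ
  have hδa : ∀ x, δ x = (n : ℝ) • dd ι N x := fun x => rfl
  have hδw : w' * δ w = (n : ℝ) • FF c.p c.S.D (v - c.S.D) := by
    rw [hδa, mul_smul_comm, hlog]
  have hww' : w * w' = 1 := by rw [hw, hw', Units.mul_inv]
  have hw'w : w' * w = 1 := by rw [hw, hw', Units.inv_mul]
  have hδm : ∀ x y, δ (x * y) = δ x * y + x * δ y := fun x y => by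
    rw [hδa, hδa, hδa, dd_mul, smul_add, smul_mul_assoc, mul_smul_comm]
  have hδF : ∀ k, ∀ x ∈ c.W.F k, δ x ∈ c.W.F (k + 1) := fun k x hx =>
    (wS ι N c.Θ (k + 1)).smul_mem _ (c.dd_W hx)
  have hf : w' * δ w ∈ c.z.restrictScalars ℚ := by
    rw [hδw]
    exact c.z.smul_mem _ (FF_zz c.S c.p hv)
  have hδT : ∀ x ∈ c.z.restrictScalars ℚ, δ x ∈ (zs c.S c.p 1).restrictScalars ℚ := fun x hx =>
    (zs c.S c.p 1).smul_mem _ (dd_zs c.S c.p (k := 0) hx)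
  clear_value w w' δ
  obtain ⟨j, hj, h⟩ := shift c.W h1 δ hδm hδF
    (c.z.restrictScalars ℚ) ((zs c.S c.p 1).restrictScalars ℚ) (fun x hx => c.z_W hx)
    (fun x hx => zs_le c.S c.p 1 hx) (fun x hx y hy => br_zs c.S c.p (k := 0) hx hy)
    hδT hwW hww' hw'w hf
  refine ⟨j, hj, ?_⟩
  rw [sh_eq_sum (Θ := c.Θ) (n : ℝ) hw0, ← hδw, ← h, hδ]

/-- `Φ⁻¹ * sh Φ` -/
def uu (v : Matrix (Fin N) (Fin N) ℝ) (hv : v - c.S.D ∈ c.S.V) (n : ℤ) : c.G :=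
  ⟨(c.Ph v (c.v_T1 hv))⁻¹ * Units.map (sh ι N (n : ℝ)).toMonoidHom (c.Ph v (c.v_T1 hv)), by
    obtain ⟨j, hj, h⟩ := c.uu_aux v hv n
    exact ⟨_, c.z.add_mem (c.z.smul_mem _ (FF_zz c.S c.p hv)) (zs_le c.S c.p 1 hj), h⟩⟩

theorem uu_val (v : Matrix (Fin N) (Fin N) ℝ) (hv : v - c.S.D ∈ c.S.V) (n : ℤ) :
    (c.uu v hv n).1 =
      (c.Ph v (c.v_T1 hv))⁻¹ * Units.map (sh ι N (n : ℝ)).toMonoidHom (c.Ph v (c.v_T1 hv)) := rfl

theorem uu_log (v : Matrix (Fin N) (Fin N) ℝ) (hv : v - c.S.D ∈ c.S.V) (n : ℤ) :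
    ∃ j, ∃ _ : j ∈ zs c.S c.p 1,
      ∃ h : (n : ℝ) • FF c.p c.S.D (v - c.S.D) + j ∈ c.z, c.uu v hv n = c.ex _ h := by
  obtain ⟨j, hj, h⟩ := c.uu_aux v hv n
  exact ⟨j, hj, c.z.add_mem (c.z.smul_mem _ (FF_zz c.S c.p hv)) (zs_le c.S c.p 1 hj),
    c.ext_val h⟩

/-! ### Values at the integers -/

theorem ev_p (m : ℤ) (i : ι) : (c.p i).eval (m : ℝ) = (((c.P i).eval m : ℤ) : ℝ) := by
  unfold p
  rw [Polynomial.eval_intCast_map]
  rfl

theorem ev_epv (v : Matrix (Fin N) (Fin N) ℝ) (hv : v ∈ c.T1) (m : ℤ) (i : ι) :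
    ev ι N m (IsNilpotent.exp (px c.p v)) i =
      IsNilpotent.exp ((((c.P i).eval m : ℤ) : ℝ) • v) := by
  rw [ev_exp m (c.pv_nil hv), ev_px, c.ev_p]

theorem ev_epv' (v : Matrix (Fin N) (Fin N) ℝ) (hv : v ∈ c.T1) (m : ℤ) (i : ι) :
    ev ι N m (IsNilpotent.exp (-(px c.p v))) i =
      IsNilpotent.exp (-((((c.P i).eval m : ℤ) : ℝ) • v)) := by
  rw [ev_exp m (c.pv_nil hv).neg, map_neg, Pi.neg_apply, ev_px, c.ev_p]

theorem smul_F {x : Matrix (Fin N) (Fin N) ℝ} (hx : x ∈ (Pool.Agent.TH91.NB.J887.matFiltR N).F 1) (t : ℝ) :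
    t • x ∈ (Pool.Agent.TH91.NB.J887.matFiltR N).F 1 := (Pool.Agent.TH91.NB.J887.FR N 1).smul_mem t hx

theorem exp_add_smul {x : Matrix (Fin N) (Fin N) ℝ} (hx : x ∈ (Pool.Agent.TH91.NB.J887.matFiltR N).F 1) (s t : ℝ) :
    IsNilpotent.exp ((s + t) • x) = IsNilpotent.exp (s • x) * IsNilpotent.exp (t • x) := by
  rw [add_smul]
  exact IsNilpotent.exp_add_of_commute (((Commute.refl x).smul_left s).smul_right t)
    ((Pool.Agent.TH91.NB.J887.matFiltR N).nilp (smul_F hx s)) ((Pool.Agent.TH91.NB.J887.matFiltR N).nilp (smul_F hx t))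

/-- conjugates of `Λ` by the powers of `exp D` -/
theorem conj_pow {y : Matrix (Fin N) (Fin N) ℝ} (hy : y ∈ c.S.Λ) (q : ℤ) :
    IsNilpotent.exp ((q : ℝ) • c.S.D) * y * IsNilpotent.exp (-((q : ℝ) • c.S.D)) ∈ c.S.Λ := by
  have hs : ∀ q : ℤ, ∀ y ∈ c.S.Λ,
      IsNilpotent.exp ((q : ℝ) • c.S.D) * y * IsNilpotent.exp (-((q : ℝ) • c.S.D)) ∈ c.S.Λ →
      IsNilpotent.exp (((q + 1 : ℤ) : ℝ) • c.S.D) * y *
        IsNilpotent.exp (-(((q + 1 : ℤ) : ℝ) • c.S.D)) ∈ c.S.Λ := by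
    intro q y _ h
    have h1 := c.S.Λconj _ h
    have e1 : IsNilpotent.exp (((q + 1 : ℤ) : ℝ) • c.S.D) =
        IsNilpotent.exp c.S.D * IsNilpotent.exp ((q : ℝ) • c.S.D) := by
      have := exp_add_smul c.D_F 1 (q : ℝ)
      rw [one_smul] at this
      rw [← this]
      congr 2
      push_cast
      ring
    have e2 : IsNilpotent.exp (-(((q + 1 : ℤ) : ℝ) • c.S.D)) =
        IsNilpotent.exp (-((q : ℝ) • c.S.D)) * IsNilpotent.exp (-c.S.D) := by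
      have := exp_add_smul c.D_F (-(q : ℝ)) (-1)
      rw [neg_smul, neg_smul, one_smul] at this
      rw [← this]
      congr 1
      push_cast
      rw [← neg_smul]
      congr 1
      ring
    rw [e1, e2]
    convert h1 using 1
    noncomm_ring
  have hs' : ∀ q : ℤ, ∀ y ∈ c.S.Λ,
      IsNilpotent.exp ((q : ℝ) • c.S.D) * y * IsNilpotent.exp (-((q : ℝ) • c.S.D)) ∈ c.S.Λ →
      IsNilpotent.exp (((q - 1 : ℤ) : ℝ) • c.S.D) * y *
        IsNilpotent.exp (-(((q - 1 : ℤ) : ℝ) • c.S.D)) ∈ c.S.Λ := by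
    intro q y _ h
    have h1 := c.S.Λconj' _ h
    have e1 : IsNilpotent.exp (((q - 1 : ℤ) : ℝ) • c.S.D) =
        IsNilpotent.exp (-c.S.D) * IsNilpotent.exp ((q : ℝ) • c.S.D) := by
      have := exp_add_smul c.D_F (-1) (q : ℝ)
      rw [neg_smul, one_smul] at this
      rw [← this]
      congr 2
      push_cast
      ring
    have e2 : IsNilpotent.exp (-(((q - 1 : ℤ) : ℝ) • c.S.D)) =
        IsNilpotent.exp (-((q : ℝ) • c.S.D)) * IsNilpotent.exp c.S.D := by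
      have := exp_add_smul c.D_F (-(q : ℝ)) 1
      rw [neg_smul, one_smul] at this
      rw [← this]
      congr 1
      push_cast
      rw [← neg_smul]
      congr 1
      ring
    rw [e1, e2]
    convert h1 using 1
    noncomm_ring
  induction q using Int.induction_on with
  | zero =>
    simpa [IsNilpotent.exp_zero] using hy
  | succ k ih => exact hs _ y hy ih
  | pred k ih => exact hs' _ y hy ih

theorem EE_Γ {y : Matrix (Fin N) (Fin N) ℝ} (hy : y ∈ c.S.Λ) :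
    c.ex (EE c.p c.S.D y) (EE_zz c.S c.p (c.S.ΛV hy)) ∈ c.Γ := by
  refine c.mem_Γ.2 fun m i => ?_
  refine ⟨_, c.conj_pow hy ((c.P i).eval m), ?_⟩
  have hz : EE c.p c.S.D y ∈ c.z := EE_zz c.S c.p (c.S.ΛV hy)
  change ev ι N m (IsNilpotent.exp (EE c.p c.S.D y)) i = _
  rw [ev_exp m (c.nil hz)]
  congr 1
  unfold EE
  rw [map_mul, map_mul, Pi.mul_apply, Pi.mul_apply, ev_cst, c.ev_epv _ c.D_T1,
    c.ev_epv' _ c.D_T1]

/-- `exp (q v') exp (-q D) ∈ exp Λ` for `exp v' = exp y exp D` -/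
theorem pow_Λ {v y : Matrix (Fin N) (Fin N) ℝ} (hv : v - c.S.D ∈ c.S.V) (hy : y ∈ c.S.Λ)
    (h : IsNilpotent.exp v = IsNilpotent.exp y * IsNilpotent.exp c.S.D) (q : ℤ) :
    ∃ x ∈ c.S.Λ, IsNilpotent.exp ((q : ℝ) • v) * IsNilpotent.exp (-((q : ℝ) • c.S.D)) =
      IsNilpotent.exp x := by
  have hvF : v ∈ (Pool.Agent.TH91.NB.J887.matFiltR N).F 1 := c.T1_F (c.v_T1 hv)
  have hvn : IsNilpotent v := (Pool.Agent.TH91.NB.J887.matFiltR N).nilp hvF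
  have hv' : IsNilpotent.exp (-v) = IsNilpotent.exp (-c.S.D) * IsNilpotent.exp (-y) := by
    symm
    refine exp_val_inv hvF ?_
    rw [h]
    have h1 := IsNilpotent.exp_mul_exp_neg_self c.D_nil
    have h2 := IsNilpotent.exp_mul_exp_neg_self (c.Λ_nil hy)
    calc IsNilpotent.exp y * IsNilpotent.exp c.S.D *
        (IsNilpotent.exp (-c.S.D) * IsNilpotent.exp (-y))
        = IsNilpotent.exp y * (IsNilpotent.exp c.S.D * IsNilpotent.exp (-c.S.D)) *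
          IsNilpotent.exp (-y) := by noncomm_ring
      _ = 1 := by rw [h1, mul_one, h2]
  have hs : ∀ q : ℤ, (∃ x ∈ c.S.Λ, IsNilpotent.exp ((q : ℝ) • v) *
      IsNilpotent.exp (-((q : ℝ) • c.S.D)) = IsNilpotent.exp x) →
      ∃ x ∈ c.S.Λ, IsNilpotent.exp (((q + 1 : ℤ) : ℝ) • v) *
        IsNilpotent.exp (-(((q + 1 : ℤ) : ℝ) • c.S.D)) = IsNilpotent.exp x := by
    rintro q ⟨x, hx, hq⟩
    have h1 := c.S.Λconj x hx
    obtain ⟨w, hw, h2⟩ := c.V_lat.exp_mul (c.S.ΛV hy) (c.S.ΛV h1)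
    refine ⟨w, c.S.Λmul _ hy _ h1 w hw h2, ?_⟩
    rw [← h2, exp_conj (IsNilpotent.exp_mul_exp_neg_self c.D_nil)
      (IsNilpotent.exp_neg_mul_exp_self c.D_nil) (c.Λ_nil hx), ← hq]
    have e1 : IsNilpotent.exp (((q + 1 : ℤ) : ℝ) • v) =
        IsNilpotent.exp y * IsNilpotent.exp c.S.D * IsNilpotent.exp ((q : ℝ) • v) := by
      have := exp_add_smul hvF 1 (q : ℝ)
      rw [one_smul, h] at this
      rw [← this]
      congr 2
      push_cast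
      ring
    have e2 : IsNilpotent.exp (-(((q + 1 : ℤ) : ℝ) • c.S.D)) =
        IsNilpotent.exp (-((q : ℝ) • c.S.D)) * IsNilpotent.exp (-c.S.D) := by
      have := exp_add_smul c.D_F (-(q : ℝ)) (-1)
      rw [neg_smul, neg_smul, one_smul] at this
      rw [← this]
      congr 1
      push_cast
      rw [← neg_smul]
      congr 1
      ring
    rw [e1, e2]
    noncomm_ring
  have hs' : ∀ q : ℤ, (∃ x ∈ c.S.Λ, IsNilpotent.exp ((q : ℝ) • v) *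
      IsNilpotent.exp (-((q : ℝ) • c.S.D)) = IsNilpotent.exp x) →
      ∃ x ∈ c.S.Λ, IsNilpotent.exp (((q - 1 : ℤ) : ℝ) • v) *
        IsNilpotent.exp (-(((q - 1 : ℤ) : ℝ) • c.S.D)) = IsNilpotent.exp x := by
    rintro q ⟨x, hx, hq⟩
    obtain ⟨w, hw, h2⟩ := c.V_lat.exp_mul (c.S.ΛV (c.S.Λneg y hy)) (c.S.ΛV hx)
    have hwΛ := c.S.Λmul _ (c.S.Λneg y hy) _ hx w hw h2
    refine ⟨_, c.S.Λconj' w hwΛ, ?_⟩
    rw [exp_conj (IsNilpotent.exp_neg_mul_exp_self c.D_nil)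
      (IsNilpotent.exp_mul_exp_neg_self c.D_nil) (c.Λ_nil hwΛ), ← h2, ← hq]
    have e1 : IsNilpotent.exp (((q - 1 : ℤ) : ℝ) • v) =
        IsNilpotent.exp (-c.S.D) * IsNilpotent.exp (-y) * IsNilpotent.exp ((q : ℝ) • v) := by
      have := exp_add_smul hvF (-1) (q : ℝ)
      rw [neg_smul, one_smul, hv'] at this
      rw [← this]
      congr 2
      push_cast
      ring
    have e2 : IsNilpotent.exp (-(((q - 1 : ℤ) : ℝ) • c.S.D)) =
        IsNilpotent.exp (-((q : ℝ) • c.S.D)) * IsNilpotent.exp c.S.D := by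
      have := exp_add_smul c.D_F (-(q : ℝ)) 1
      rw [neg_smul, one_smul] at this
      rw [← this]
      congr 1
      push_cast
      rw [← neg_smul]
      congr 1
      ring
    rw [e1, e2]
    noncomm_ring
  induction q using Int.induction_on with
  | zero => exact ⟨0, c.S.Λzero, by simp [IsNilpotent.exp_zero]⟩
  | succ k ih => exact hs _ ih
  | pred k ih => exact hs' _ ih

theorem uu_Γ {v y : Matrix (Fin N) (Fin N) ℝ} (hv : v - c.S.D ∈ c.S.V) (hy : y ∈ c.S.Λ)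
    (h : IsNilpotent.exp v = IsNilpotent.exp y * IsNilpotent.exp c.S.D) (n : ℤ) :
    c.uu v hv n ∈ c.Γ := by
  refine c.mem_Γ.2 fun m i => ?_
  obtain ⟨x, hx, h1⟩ := c.pow_Λ hv hy h ((c.P i).eval m)
  obtain ⟨x', hx', h2⟩ := c.pow_Λ hv hy h ((c.P i).eval (m + n))
  obtain ⟨w, hw, h3⟩ := c.V_lat.exp_mul (c.S.ΛV (c.S.Λneg x hx)) (c.S.ΛV hx')
  refine ⟨w, c.S.Λmul _ (c.S.Λneg x hx) _ hx' w hw h3, ?_⟩
  have e1 : ev ι N m ((c.Ph v (c.v_T1 hv) : (PM ι N)ˣ) : PM ι N) i = IsNilpotent.exp x := by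
    rw [Ph_val, map_mul, Pi.mul_apply, c.ev_epv _ (c.v_T1 hv), c.ev_epv' _ c.D_T1, h1]
  have e2 : ev ι N (m + n) ((c.Ph v (c.v_T1 hv) : (PM ι N)ˣ) : PM ι N) i =
      IsNilpotent.exp x' := by
    rw [Ph_val, map_mul, Pi.mul_apply, c.ev_epv _ (c.v_T1 hv), c.ev_epv' _ c.D_T1, h2]
  have e3 : ev ι N m (((c.Ph v (c.v_T1 hv))⁻¹ : (PM ι N)ˣ) : PM ι N) i =
      IsNilpotent.exp (-x) := by
    refine exp_val_inv (c.Λ_F hx) ?_
    rw [← e1, ← Pi.mul_apply, ← map_mul, Units.mul_inv, map_one]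
    rfl
  rw [uu_val, Units.val_mul, map_mul, Pi.mul_apply, e3]
  have e4 : ev ι N m ((Units.map (sh ι N (n : ℝ)).toMonoidHom (c.Ph v (c.v_T1 hv)) :
      (PM ι N)ˣ) : PM ι N) i = IsNilpotent.exp x' := by
    change ev ι N m (sh ι N (n : ℝ) ((c.Ph v (c.v_T1 hv) : (PM ι N)ˣ) : PM ι N)) i = _
    rw [ev_sh, e2]
  rw [e4, h3]

theorem exists_v {y : Matrix (Fin N) (Fin N) ℝ} (hy : y ∈ c.S.V) :
    ∃ v, v - c.S.D ∈ c.S.V ∧ v - c.S.D - y ∈ c.B1 ∧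
      IsNilpotent.exp v = IsNilpotent.exp y * IsNilpotent.exp c.S.D := by
  obtain ⟨j, hj, h⟩ := c.T1_mul (c.V_le_T1 hy) c.D_T1
  refine ⟨y + c.S.D + j, ?_, ?_, h.symm⟩
  · rw [show y + c.S.D + j - c.S.D = y + j by abel]
    exact c.S.V.add_mem hy (c.B1_le hj)
  · rw [show y + c.S.D + j - c.S.D - y = j by abel]
    exact hj

/-- the logarithms of the elements of the discrete group -/
def LΓ : Set (PM ι N) := {y | ∃ h : y ∈ c.z, c.ex y h ∈ c.Γ}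

theorem FF_Λ {y : Matrix (Fin N) (Fin N) ℝ} (hy : y ∈ c.S.Λ) :
    ∃ j ∈ zs c.S c.p 1, FF c.p c.S.D y + j ∈ c.LΓ := by
  obtain ⟨v, hv, hvy, h⟩ := c.exists_v (c.S.ΛV hy)
  obtain ⟨j, hj, h1, h2⟩ := c.uu_log v hv 1
  have e : ((1 : ℤ) : ℝ) • FF c.p c.S.D (v - c.S.D) + j =
      FF c.p c.S.D y + (FF c.p c.S.D (v - c.S.D - y) + j) := by
    rw [Int.cast_one, one_smul, ← add_assoc, ← FF_add]
    congr 2
    abel
  refine ⟨FF c.p c.S.D (v - c.S.D - y) + j, Submodule.add_mem _ (c.FF_B1 hvy) hj, ?_⟩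
  rw [← e]
  exact ⟨h1, h2 ▸ c.uu_Γ hv (c.S.ΛV hy |> fun _ => hy) h 1⟩

theorem span0 : c.z ≤ Submodule.span ℝ {y | ∃ h : y ∈ c.z, c.ex y h ∈ c.Γ} ⊔ zs c.S c.p 1 := by
  intro z hz
  obtain ⟨x, hx, y, hy, w, hw, rfl⟩ := zz_form c.S c.p (EE_smul_add c.S c.p)
    (FF_smul_add c.S c.p) hz
  clear hz
  refine Submodule.add_mem _ (Submodule.add_mem _ ?_ ?_) (Submodule.mem_sup_right hw)
  · have h := c.S.Λspan hx
    induction h using Submodule.span_induction with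
    | mem a ha =>
      exact Submodule.mem_sup_left (Submodule.subset_span
        ⟨EE_zz c.S c.p (c.S.ΛV ha), c.EE_Γ ha⟩)
    | zero => rw [EE_zero]; exact Submodule.zero_mem _
    | add a b ha' hb' ha hb =>
      rw [EE_add]
      exact Submodule.add_mem _ (ha (Submodule.span_le.2 c.S.ΛV ha'))
        (hb (Submodule.span_le.2 c.S.ΛV hb'))
    | smul t a ha' ha =>
      rw [EE_smul]
      exact Submodule.smul_mem _ _ (ha (Submodule.span_le.2 c.S.ΛV ha'))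
  · have h := c.S.Λspan hy
    induction h using Submodule.span_induction with
    | mem a ha =>
      obtain ⟨j, hj, h1⟩ := c.FF_Λ ha
      have e : FF c.p c.S.D a = (FF c.p c.S.D a + j) - j := by abel
      rw [e]
      exact Submodule.sub_mem _ (Submodule.mem_sup_left (Submodule.subset_span h1))
        (Submodule.mem_sup_right hj)
    | zero => rw [FF_zero]; exact Submodule.zero_mem _
    | add a b ha' hb' ha hb =>
      rw [FF_add]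
      exact Submodule.add_mem _ (ha (Submodule.span_le.2 c.S.ΛV ha'))
        (hb (Submodule.span_le.2 c.S.ΛV hb'))
    | smul t a ha' ha =>
      rw [FF_smul]
      exact Submodule.smul_mem _ _ (ha (Submodule.span_le.2 c.S.ΛV ha'))

end Cx

end

end Pool.Agent.TH142.PN
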