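import Mathlib
import Pool.Agent.TH142.PN.Elem
import Pool.Agent.TH111.PN.C12
import Pool.Agent.TH111.PN.C4
import Pool.Agent.TH416.PN.C3

/-!
# Interface, second part
-/

set_option autoImplicit false

namespace Pool.Agent.TH142.PN

export Pool.Agent.TH111.PN (exists_affSys char_zs)

export Pool.Agent.TH416.PN (step_of_zero)

end Pool.Agent.TH142.PN
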