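import Mathlib
import Pool.Agent.TH142.PN.Api2

/-!
# Invariant characters of the group of polynomial maps
-/

set_option autoImplicit false

namespace Pool.Agent.TH142.PN

open Finset Polynomial Pool.Agent.TH91.RF Topology

noncomputable section

namespace Cx

variable {ι : Type} {N : ℕ} (c : Cx ι N)

theorem ev_EE (x : Matrix (Fin N) (Fin N) ℝ) (m : ℤ) (i : ι) :
    ev ι N m (EE c.p c.S.D x) i = IsNilpotent.exp ((((c.P i).eval m : ℤ) : ℝ) • c.S.D) * x *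
      IsNilpotent.exp (-((((c.P i).eval m : ℤ) : ℝ) • c.S.D)) := by
  unfold EE
  rw [map_mul, map_mul, Pi.mul_apply, Pi.mul_apply, ev_cst, c.ev_epv _ c.D_T1,
    c.ev_epv' _ c.D_T1]

theorem ev_FF (x : Matrix (Fin N) (Fin N) ℝ) (m : ℤ) (i : ι) :
    ev ι N m (FF c.p c.S.D x) i = (derivative (c.p i)).eval (m : ℝ) •
      ev ι N m (EE c.p c.S.D x) i := by
  ext a b
  rw [ev_apply, Matrix.smul_apply, ev_apply]
  change ((derivative (c.p i)) * (EE c.p c.S.D x i a b)).eval (m : ℝ) = _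
  rw [eval_mul, smul_eq_mul]

theorem EEz {x : Matrix (Fin N) (Fin N) ℝ} (hx : x ∈ c.S.V) : EE c.p c.S.D x ∈ c.z :=
  EE_zz c.S c.p hx

theorem FFz {x : Matrix (Fin N) (Fin N) ℝ} (hx : x ∈ c.S.V) : FF c.p c.S.D x ∈ c.z :=
  FF_zz c.S c.p hx

theorem zsz {k : ℕ} {x : PM ι N} (hx : x ∈ zs c.S c.p k) : x ∈ c.z := zs_le c.S c.p k hx

theorem continuous_EE : Continuous fun x : c.S.V =>
    c.ex (EE c.p c.S.D x) (c.EEz x.2) := by
  refine c.continuous_ex (f := fun x : c.S.V => EE c.p c.S.D (x : Matrix (Fin N) (Fin N) ℝ))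
    (fun x => c.EEz x.2) fun m i => ?_
  simp only [ev_EE]
  exact (continuous_const.mul continuous_subtype_val).mul continuous_const

theorem continuous_FF : Continuous fun x : c.S.V =>
    c.ex (FF c.p c.S.D x) (c.FFz x.2) := by
  refine c.continuous_ex (f := fun x : c.S.V => FF c.p c.S.D (x : Matrix (Fin N) (Fin N) ℝ))
    (fun x => c.FFz x.2) fun m i => ?_
  simp only [ev_FF, ev_EE]
  have h : Continuous fun x : c.S.V =>
      IsNilpotent.exp ((((c.P i).eval m : ℤ) : ℝ) • c.S.D) * (x : Matrix (Fin N) (Fin N) ℝ) *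
      IsNilpotent.exp (-((((c.P i).eval m : ℤ) : ℝ) • c.S.D)) :=
    (continuous_const.mul continuous_subtype_val).mul continuous_const
  exact h.const_smul ((derivative (c.p i)).eval (m : ℝ))

theorem char_trivial (hirr : c.S.Irr) (χ : c.G →* Circle) (hχ : Continuous χ) {K : ℤ}
    (hK : 0 < K) (hsh : ∀ g, χ (c.shG K g) = χ g) (hs : ∀ g, χ (c.sG g) = χ g)
    (hΓ : ∀ γ ∈ c.Γ, χ γ = 1) (huS : χ (c.uu c.S.v c.S.hv K) = 1)
    {x0 : Matrix (Fin N) (Fin N) ℝ} (hx0 : x0 ∈ c.S.V) (hx0' : x0 - (c.S.v - c.S.D) ∈ c.B1)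
    (huT : χ (c.ex (EE c.p c.S.D x0) (c.EEz hx0)) = 1) (g : c.G) : χ g = 1 := by
  obtain ⟨h1, hadd⟩ := char_zs c χ (ne_of_gt hK) hsh hs
  have hadd' : ∀ {x y w : PM ι N} (hx : x ∈ c.z) (hy : y ∈ c.z) (hw : w ∈ c.z), w = x + y →
      χ (c.ex w hw) = χ (c.ex x hx) * χ (c.ex y hy) := by
    rintro x y w hx hy hw rfl
    exact hadd x y hx hy
  have hz1 : ∀ {x y : PM ι N} (hx : x ∈ c.z) (hy : y ∈ c.z), x - y ∈ zs c.S c.p 1 →
      χ (c.ex x hx) = χ (c.ex y hy) := by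
    intro x y hx hy h
    rw [hadd' hy (c.zsz h) hx (by abel), h1 _ _ h, mul_one]
  -- multiples
  have hmul : ∀ (n : ℕ) {x : PM ι N} (hx : x ∈ c.z) (hy : (n : ℝ) • x ∈ c.z),
      χ (c.ex ((n : ℝ) • x) hy) = χ (c.ex x hx) ^ n := by
    intro n
    induction n with
    | zero =>
      intro x hx hy
      rw [pow_zero]
      have e : ((0 : ℕ) : ℝ) • x = 0 := by simp
      exact h1 _ _ (by rw [e]; exact Submodule.zero_mem _)
    | succ n ih =>
      intro x hx hy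
      rw [pow_succ, ← ih hx (c.z.smul_mem _ hx)]
      refine hadd' _ _ _ ?_
      push_cast
      rw [add_smul, one_smul]
  have hEE : ∀ x (hx : x ∈ c.S.V), χ (c.ex (EE c.p c.S.D x) (c.EEz hx)) = 1 := by
    have key := hirr (fun x => χ (c.ex (EE c.p c.S.D x) (c.EEz x.2)))
      (hχ.comp c.continuous_EE) (fun x y => ?_) (fun x y => ?_) (fun x => ?_) (fun y hy => ?_)
      ⟨1, one_pos, ?_⟩
    · exact fun x hx => key ⟨x, hx⟩
    · exact hadd' _ _ _ (c.EE_add _ _)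
    · exact h1 _ _ (c.EE_B1 (c.B1_V x.2 y.2))
    · exact h1 _ _ (c.EE_B1 (c.B1_D x.2))
    · exact hΓ _ (c.EE_Γ hy)
    · rw [pow_one, ← huT]
      refine (hz1 _ _ ?_).symm
      have h2 := c.EE_B1 hx0'
      rwa [EE_sub] at h2
  have hFF : ∀ x (hx : x ∈ c.S.V), χ (c.ex (FF c.p c.S.D x) (c.FFz hx)) = 1 := by
    have key := hirr (fun x => χ (c.ex (FF c.p c.S.D x) (c.FFz x.2)))
      (hχ.comp c.continuous_FF) (fun x y => ?_) (fun x y => ?_) (fun x => ?_) (fun y hy => ?_)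
      ⟨K.toNat, by omega, ?_⟩
    · exact fun x hx => key ⟨x, hx⟩
    · exact hadd' _ _ _ (c.FF_add _ _)
    · exact h1 _ _ (c.FF_B1 (c.B1_V x.2 y.2))
    · exact h1 _ _ (c.FF_B1 (c.B1_D x.2))
    · obtain ⟨j, hj, h2, h3⟩ := c.FF_Λ hy
      rw [← hΓ _ h3]
      refine (hz1 _ _ ?_).symm
      rw [add_sub_cancel_left]
      exact hj
    · obtain ⟨j, hj, h2, h3⟩ := c.uu_log c.S.v c.S.hv K
      rw [h3] at huS
      rw [← huS, ← hmul _ _ (c.z.smul_mem _ (c.FFz c.S.hv))]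
      refine (hz1 _ _ ?_).symm
      have e : ((K.toNat : ℕ) : ℝ) = (K : ℝ) := by
        have : ((K.toNat : ℕ) : ℤ) = K := Int.toNat_of_nonneg hK.le
        exact_mod_cast this
      rw [e, add_sub_cancel_left]
      exact hj
  obtain ⟨z, hz, rfl⟩ := c.exists_ex g
  obtain ⟨x, hx, y, hy, w, hw, rfl⟩ := zz_form c.S c.p (EE_smul_add c.S c.p)
    (FF_smul_add c.S c.p) hz
  rw [hadd' (c.z.add_mem (c.EEz hx) (c.FFz hy)) (c.zsz hw) hz rfl,
    hadd' (c.EEz hx) (c.FFz hy) _ rfl, hEE x hx, hFF y hy, h1 _ _ hw, mul_one,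
    mul_one]

end Cx

end

end Pool.Agent.TH142.PN
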