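import Mathlib
import Pool.Agent.TH142.PN.Char

/-!
# Return times along polynomials
-/

set_option autoImplicit false

namespace Pool.Agent.TH142.PN

open Finset Polynomial Pool.Agent.TH91.RF Topology

noncomputable section

namespace Cx

variable {ι : Type} {N : ℕ} (c : Cx ι N)

/-- the unit `exp v` -/
def eV : (PM ι N)ˣ :=
  ⟨IsNilpotent.exp (cst ι c.S.v), IsNilpotent.exp (-cst ι c.S.v),
    IsNilpotent.exp_mul_exp_neg_self (c.W.nilp (cst_mem c.hΘ0 (c.T1_sup (c.v_T1 c.S.hv)))),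
    IsNilpotent.exp_neg_mul_exp_self (c.W.nilp (cst_mem c.hΘ0 (c.T1_sup (c.v_T1 c.S.hv))))⟩

theorem v_F : c.S.v ∈ (Pool.Agent.TH91.NB.J887.matFiltR N).F 1 := c.T1_F (c.v_T1 c.S.hv)

theorem cstv_nil : IsNilpotent (cst ι c.S.v) :=
  c.W.nilp (cst_mem c.hΘ0 (c.T1_sup (c.v_T1 c.S.hv)))

theorem ev_eV (m : ℤ) (i : ι) : ev ι N m (c.eV : PM ι N) i = IsNilpotent.exp c.S.v := by
  change ev ι N m (IsNilpotent.exp (cst ι c.S.v)) i = _
  rw [ev_exp _ c.cstv_nil, ev_cst]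

theorem ev_Ph (v : Matrix (Fin N) (Fin N) ℝ) (hv : v ∈ c.T1) (m : ℤ) (i : ι) :
    ev ι N m ((c.Ph v hv : (PM ι N)ˣ) : PM ι N) i =
      IsNilpotent.exp ((((c.P i).eval m : ℤ) : ℝ) • v) *
        IsNilpotent.exp (-((((c.P i).eval m : ℤ) : ℝ) • c.S.D)) := by
  rw [Ph_val, map_mul, Pi.mul_apply, c.ev_epv _ hv, c.ev_epv' _ c.D_T1]

/-- the translation of units -/
def shU (n : ℤ) : (PM ι N)ˣ →* (PM ι N)ˣ := Units.map (sh ι N (n : ℝ)).toMonoidHom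

theorem shU_val (n : ℤ) (u : (PM ι N)ˣ) : (shU n u : PM ι N) = sh ι N (n : ℝ) (u : PM ι N) := rfl

theorem shU_shU (m n : ℤ) (u : (PM ι N)ˣ) : shU m (shU n u) = shU (m + n) u := by
  apply Units.ext
  rw [shU_val, shU_val, shU_val, sh_sh, Int.cast_add]

theorem shU_eV (n : ℤ) : shU n c.eV = c.eV := by
  apply Units.ext
  change sh ι N (n : ℝ) (IsNilpotent.exp (cst ι c.S.v)) = IsNilpotent.exp (cst ι c.S.v)
  rw [sh_exp _ c.cstv_nil, sh_cst]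

theorem shU_eD (n : ℤ) : shU n c.eD = c.eD := by
  apply Units.ext
  change sh ι N (n : ℝ) (IsNilpotent.exp (cst ι c.S.D)) = IsNilpotent.exp (cst ι c.S.D)
  rw [sh_exp _ (c.W.nilp c.D_W), sh_cst]

theorem shG_val' (n : ℤ) (g : c.G) : (c.shG n g).1 = shU n g.1 := rfl

theorem Ph_uu (n : ℤ) : c.Ph c.S.v (c.v_T1 c.S.hv) * (c.uu c.S.v c.S.hv n).1 =
    shU n (c.Ph c.S.v (c.v_T1 c.S.hv)) := by
  rw [uu_val, mul_inv_cancel_left]
  rfl

theorem exists_x0 : ∃ x0 ∈ c.S.V, x0 - (c.S.v - c.S.D) ∈ c.B1 ∧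
    IsNilpotent.exp c.S.v * IsNilpotent.exp (-c.S.D) = IsNilpotent.exp x0 := by
  obtain ⟨j, hj, h⟩ := c.T1_mul (c.v_T1 c.S.hv) (c.T1.neg_mem c.D_T1)
  refine ⟨c.S.v + -c.S.D + j, ?_, ?_, h⟩
  · rw [← sub_eq_add_neg]
    exact c.S.V.add_mem c.S.hv (c.B1_le hj)
  · rw [← sub_eq_add_neg, add_sub_cancel_left]
    exact hj

theorem Ph_uT {x0 : Matrix (Fin N) (Fin N) ℝ} (hx0 : x0 ∈ c.S.V)
    (h : IsNilpotent.exp c.S.v * IsNilpotent.exp (-c.S.D) = IsNilpotent.exp x0) :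
    c.Ph c.S.v (c.v_T1 c.S.hv) * (c.ex (EE c.p c.S.D x0) (c.EEz hx0)).1 * c.eD =
      c.eV * c.Ph c.S.v (c.v_T1 c.S.hv) := by
  apply Units.ext
  apply ev_inj
  intro m
  funext i
  rw [Units.val_mul, Units.val_mul, Units.val_mul, map_mul, map_mul, map_mul, Pi.mul_apply,
    Pi.mul_apply, Pi.mul_apply, ev_Ph, ev_eD, ev_eV, ex_val, ev_exp m (c.nil (c.EEz hx0)),
    c.ev_EE]
  set q : ℝ := (((c.P i).eval m : ℤ) : ℝ) with hq
  have hqD : IsNilpotent (q • c.S.D) :=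
    (Pool.Agent.TH91.NB.J887.matFiltR N).nilp (smul_F c.D_F q)
  have hx0n : IsNilpotent x0 := (Pool.Agent.TH91.NB.J887.matFiltR N).nilp (c.V_lat.le x0 hx0)
  rw [exp_conj (IsNilpotent.exp_mul_exp_neg_self hqD) (IsNilpotent.exp_neg_mul_exp_self hqD)
    hx0n, ← h]
  have e1 := IsNilpotent.exp_neg_mul_exp_self hqD
  have e2 := IsNilpotent.exp_neg_mul_exp_self c.D_nil
  have e3 : IsNilpotent.exp (-(q • c.S.D)) * IsNilpotent.exp c.S.D =
      IsNilpotent.exp c.S.D * IsNilpotent.exp (-(q • c.S.D)) := by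
    have a1 := exp_add_smul c.D_F (-q) 1
    have a2 := exp_add_smul c.D_F 1 (-q)
    rw [one_smul, neg_smul] at a1 a2
    rw [← a1, ← a2, add_comm]
  have e4 : IsNilpotent.exp (q • c.S.v) * IsNilpotent.exp c.S.v =
      IsNilpotent.exp c.S.v * IsNilpotent.exp (q • c.S.v) := by
    have a1 := exp_add_smul c.v_F q 1
    have a2 := exp_add_smul c.v_F 1 q
    rw [one_smul] at a1 a2
    rw [← a1, ← a2, add_comm]
  calc IsNilpotent.exp (q • c.S.v) * IsNilpotent.exp (-(q • c.S.D)) *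
        (IsNilpotent.exp (q • c.S.D) * (IsNilpotent.exp c.S.v * IsNilpotent.exp (-c.S.D)) *
          IsNilpotent.exp (-(q • c.S.D))) * IsNilpotent.exp c.S.D
      = IsNilpotent.exp (q • c.S.v) * (IsNilpotent.exp (-(q • c.S.D)) *
        IsNilpotent.exp (q • c.S.D)) * IsNilpotent.exp c.S.v * IsNilpotent.exp (-c.S.D) *
          (IsNilpotent.exp (-(q • c.S.D)) * IsNilpotent.exp c.S.D) := by noncomm_ring
    _ = (IsNilpotent.exp (q • c.S.v) * IsNilpotent.exp c.S.v) *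
        (IsNilpotent.exp (-c.S.D) * IsNilpotent.exp c.S.D) *
          IsNilpotent.exp (-(q • c.S.D)) := by rw [e1, e3]; noncomm_ring
    _ = _ := by rw [e2, e4]; noncomm_ring

/-- the orbit -/
def Y0 (K j : ℕ) : Set c.G :=
  {g | ∃ n : ℕ, 0 < n ∧ ∃ l : ℕ, ∃ γ ∈ c.Γ, c.Ph c.S.v (c.v_T1 c.S.hv) * g.1 =
    c.eV ^ l * shU ((K : ℤ) * n + j) (c.Ph c.S.v (c.v_T1 c.S.hv)) * (c.eD⁻¹) ^ l * γ.1}

theorem Y0_ne (K j : ℕ) : (c.Y0 K j).Nonempty := by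
  refine ⟨c.uu c.S.v c.S.hv ((K : ℤ) * (1 : ℕ) + j), 1, one_pos, 0, 1, one_mem _, ?_⟩
  rw [c.Ph_uu, pow_zero, pow_zero, one_mul, mul_one, Subgroup.coe_one, mul_one]

theorem Y0_Γ {K j : ℕ} {y : c.G} (hy : y ∈ c.Y0 K j) {γ : c.G} (hγ : γ ∈ c.Γ) :
    y * γ ∈ c.Y0 K j := by
  obtain ⟨n, hn, l, γ', hγ', h⟩ := hy
  refine ⟨n, hn, l, γ' * γ, mul_mem hγ' hγ, ?_⟩
  rw [Subgroup.coe_mul, Subgroup.coe_mul, ← mul_assoc, h, ← mul_assoc]

theorem Y0_S {K j : ℕ} {y : c.G} (hy : y ∈ c.Y0 K j) :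
    c.uu c.S.v c.S.hv K * c.shG K y ∈ c.Y0 K j := by
  obtain ⟨n, hn, l, γ, hγ, h⟩ := hy
  refine ⟨n + 1, Nat.succ_pos _, l, c.shG K γ, c.shG_Γ K hγ, ?_⟩
  rw [Subgroup.coe_mul, ← mul_assoc, c.Ph_uu, c.shG_val', c.shG_val', ← map_mul, h, map_mul,
    map_mul, map_mul, map_pow, map_pow, map_inv, c.shU_eV, c.shU_eD, shU_shU]
  congr 4
  push_cast
  ring_nf

theorem Y0_T {K j : ℕ} {x0 : Matrix (Fin N) (Fin N) ℝ} (hx0 : x0 ∈ c.S.V)
    (hx : IsNilpotent.exp c.S.v * IsNilpotent.exp (-c.S.D) = IsNilpotent.exp x0) {y : c.G}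
    (hy : y ∈ c.Y0 K j) : c.ex (EE c.p c.S.D x0) (c.EEz hx0) * c.sG y ∈ c.Y0 K j := by
  obtain ⟨n, hn, l, γ, hγ, h⟩ := hy
  refine ⟨n, hn, l + 1, c.sG γ, c.sG_Γ hγ, ?_⟩
  have h1 := c.Ph_uT hx0 hx
  rw [Subgroup.coe_mul, c.sG_val, c.sG_val]
  calc c.Ph c.S.v (c.v_T1 c.S.hv) *
        ((c.ex (EE c.p c.S.D x0) (c.EEz hx0)).1 * (c.eD * y.1 * c.eD⁻¹))
      = c.Ph c.S.v (c.v_T1 c.S.hv) * (c.ex (EE c.p c.S.D x0) (c.EEz hx0)).1 * c.eD * y.1 *
        c.eD⁻¹ := by group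
    _ = c.eV * (c.Ph c.S.v (c.v_T1 c.S.hv) * y.1) * c.eD⁻¹ := by
        rw [h1]
        group
    _ = _ := by
        rw [h, pow_succ' c.eV, pow_succ (c.eD⁻¹)]
        group

theorem map_closure_mem {X : Type*} [TopologicalSpace X] {f : X → X} (hf : Continuous f)
    {s : Set X} (h : ∀ x ∈ s, f x ∈ s) {x : X} (hx : x ∈ closure s) : f x ∈ closure s :=
  map_mem_closure hf hx h

theorem closure_Y0 [Finite ι] (hirr : c.S.Irr) {K : ℕ} (hK : 0 < K) (j : ℕ) :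
    closure (c.Y0 K j) = Set.univ := by
  obtain ⟨x0, hx0, hx0', hx⟩ := c.exists_x0
  obtain ⟨n, A, hAu, hAθ⟩ := exists_affSys c (step_of_zero c c.span0) (K : ℤ)
    (fun b => if b then c.uu c.S.v c.S.hv K else c.ex (EE c.p c.S.D x0) (c.EEz hx0))
  refine agh A ?_ isClosed_closure (c.Y0_ne K j).closure ?_ ?_
  · intro χ hχ hΓ hu hθ g
    have h1 := hu true
    have h2 := hu false
    have h3 := hθ true
    have h4 := hθ false
    simp only [hAu, hAθ, if_true, Bool.false_eq_true, if_false] at h1 h2 h3 h4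
    exact c.char_trivial hirr χ hχ (by exact_mod_cast hK) h3 h4 hΓ h1 hx0 hx0' h2 g
  · intro y hy γ hγ
    exact map_closure_mem (f := fun y => y * γ) (continuous_mul_const γ)
      (fun y hy => c.Y0_Γ hy hγ) hy
  · intro b y hy
    cases b
    · simp only [hAu, hAθ, Bool.false_eq_true, if_false]
      exact map_closure_mem (f := fun y => c.ex (EE c.p c.S.D x0) (c.EEz hx0) * c.sG y)
        ((continuous_const_mul _).comp c.sG_continuous) (fun y hy => c.Y0_T hx0 hx hy) hy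
    · simp only [hAu, hAθ, if_true]
      exact map_closure_mem (f := fun y => c.uu c.S.v c.S.hv K * c.shG K y)
        ((continuous_const_mul _).comp (c.shG_continuous K)) (fun y hy => c.Y0_S hy) hy

end Cx

theorem core {ι : Type} [Finite ι] {N : ℕ} (S : Dt N) (hirr : S.Irr) (P : ι → ℤ[X])
    (hP : ∀ i, (P i).eval 0 = 0) {K : ℕ} (hK : 0 < K) (j : ℕ) {ε : ℝ} (hε : 0 < ε) :
    ∃ n : ℕ, 0 < n ∧ ∃ l : ℕ, ∀ i, ∃ x ∈ S.Λ, ∀ a b,
      |(IsNilpotent.exp ((((l : ℤ) + (P i).eval ((K : ℤ) * n + j) : ℤ) : ℝ) • S.v) *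
        IsNilpotent.exp (-((((l : ℤ) + (P i).eval ((K : ℤ) * n + j) : ℤ) : ℝ) • S.D)) *
        IsNilpotent.exp x) a b - (1 : Matrix (Fin N) (Fin N) ℝ) a b| < ε := by
  obtain ⟨B, hB⟩ := (Set.finite_range fun i => (P i).natDegree).bddAbove
  let c : Cx ι N := ⟨S, P, B + 1, fun i => Nat.lt_succ_of_le (hB ⟨i, rfl⟩), Nat.succ_pos _⟩
  have h1 : (1 : c.G) ∈ closure (c.Y0 K j) := by
    rw [c.closure_Y0 hirr hK j]
    trivial
  have hU : ∀ᶠ g : c.G in 𝓝 1, ∀ i a b,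
      |ev ι N 0 (g.1 : PM ι N) i a b - (1 : Matrix (Fin N) (Fin N) ℝ) a b| < ε := by
    rw [Filter.eventually_all]
    intro i
    rw [Filter.eventually_all]
    intro a
    rw [Filter.eventually_all]
    intro b
    have hc : Continuous fun g : c.G =>
        |ev ι N 0 (g.1 : PM ι N) i a b - (1 : Matrix (Fin N) (Fin N) ℝ) a b| :=
      (((c.continuous_ev 0 i).matrix_elem a b).sub continuous_const).abs
    have h0 : |ev ι N 0 (((1 : c.G).1 : (PM ι N)ˣ) : PM ι N) i a b -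
        (1 : Matrix (Fin N) (Fin N) ℝ) a b| < ε := by
      rw [Subgroup.coe_one, Units.val_one, map_one, Pi.one_apply, sub_self, abs_zero]
      exact hε
    exact hc.continuousAt.eventually_lt continuousAt_const h0
  obtain ⟨g, hg, n, hn, l, γ, hγ, h⟩ := mem_closure_iff_nhds.1 h1 _ hU
  refine ⟨n, hn, l, fun i => ?_⟩
  obtain ⟨x, hx, hγx⟩ := c.mem_Γ.1 hγ 0 i
  refine ⟨x, hx, fun a b => ?_⟩
  have h2 := congrArg (fun u : (PM ι N)ˣ => ev ι N 0 (u : PM ι N) i) h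
  simp only [Units.val_mul, Units.val_pow_eq_pow_val, map_mul, map_pow, Pi.mul_apply,
    Pi.pow_apply, Cx.shU_val, Cx.ev_Ph, Cx.ev_eV, Cx.ev_eD', hγx, ev_sh] at h2
  have hP0 : (c.P i).eval 0 = 0 := hP i
  have e3 : ∀ m : ℕ, ∀ x ∈ (Pool.Agent.TH91.NB.J887.matFiltR N).F 1,
      IsNilpotent.exp x ^ m = IsNilpotent.exp ((m : ℝ) • x) := by
    intro m x hx
    induction m with
    | zero => simp [IsNilpotent.exp_zero]
    | succ m ih =>
      have := Cx.exp_add_smul hx (m : ℝ) 1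
      rw [one_smul] at this
      rw [pow_succ, ih, ← this]
      push_cast
      rfl
  have e4 := hg i a b
  convert e4 using 4
  rw [hP0, Int.cast_zero, zero_smul, zero_smul, neg_zero, IsNilpotent.exp_zero, one_mul, one_mul,
    zero_add, e3 l _ c.v_F, e3 l _ (Submodule.neg_mem _ c.D_F), smul_neg] at h2
  rw [h2]
  refine congrFun (congrFun ?_ a) b
  change (IsNilpotent.exp ((((l : ℤ) + (c.P i).eval ((K : ℤ) * n + j) : ℤ) : ℝ) • c.S.v) *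
    IsNilpotent.exp (-((((l : ℤ) + (c.P i).eval ((K : ℤ) * n + j) : ℤ) : ℝ) • c.S.D)) *
      IsNilpotent.exp x) = _
  set Q : ℤ := (c.P i).eval ((K : ℤ) * n + j) with hQ
  have e5 : IsNilpotent.exp ((((l : ℤ) + Q : ℤ) : ℝ) • c.S.v) =
      IsNilpotent.exp ((l : ℝ) • c.S.v) * IsNilpotent.exp ((Q : ℝ) • c.S.v) := by
    rw [← Cx.exp_add_smul c.v_F]
    push_cast
    rfl
  have e6 : IsNilpotent.exp (-((((l : ℤ) + Q : ℤ) : ℝ) • c.S.D)) =
      IsNilpotent.exp (-((Q : ℝ) • c.S.D)) * IsNilpotent.exp (-((l : ℝ) • c.S.D)) := by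
    rw [← neg_smul, ← neg_smul, ← neg_smul, ← Cx.exp_add_smul c.D_F]
    congr 2
    push_cast
    ring
  rw [e5, e6]
  noncomm_ring

end

end Pool.Agent.TH142.PN
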