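import Mathlib
import Pool.Agent.TH142.PN.Defs

/-!
# Unipotent models of elements of nilpotent Lie groups
-/

set_option autoImplicit false

namespace Pool.Agent.TH142.PN

open Topology Filter

noncomputable section

/-- A model of a topological group `G` around the identity by a Lie algebra `V` of strictly upper
triangular matrices, in which the conjugation by `g` is the conjugation by `exp M`. -/
structure Mdl (G : Type*) [Group G] [TopologicalSpace G] (g : G) (N : ℕ) where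
  V : Submodule ℝ (Matrix (Fin N) (Fin N) ℝ)
  M : Matrix (Fin N) (Fin N) ℝ
  supV : ∀ x ∈ V, ∀ i j, j ≤ i → x i j = 0
  supM : ∀ i j, j ≤ i → M i j = 0
  brV : ∀ x ∈ V, ∀ y ∈ V, x * y - y * x ∈ V
  brM : ∀ x ∈ V, M * x - x * M ∈ V
  ψ : V → G
  hom : ∀ x y z : V, IsNilpotent.exp (x : Matrix (Fin N) (Fin N) ℝ) *
    IsNilpotent.exp (y : Matrix (Fin N) (Fin N) ℝ) =
      IsNilpotent.exp (z : Matrix (Fin N) (Fin N) ℝ) → ψ x * ψ y = ψ z
  cont : Continuous ψ
  opn : ∀ W ∈ 𝓝 (0 : V), ψ '' W ∈ 𝓝 (1 : G)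
  conj : ∀ x y : V, IsNilpotent.exp M * IsNilpotent.exp (x : Matrix (Fin N) (Fin N) ℝ) *
    IsNilpotent.exp (-M) = IsNilpotent.exp (y : Matrix (Fin N) (Fin N) ℝ) →
      g * ψ x * g⁻¹ = ψ y

/-- The data `S` describe the translation by `g` on the orbit of the point `x0`. -/
structure Mdl.Fits {G : Type*} [Group G] [TopologicalSpace G] {g : G} {N : ℕ} (m : Mdl G g N)
    {X : Type*} [MulAction G X] (x0 : X) (S : Dt N) : Prop where
  hV : S.V = m.V
  hv : S.v = m.M
  xa : ∃ x : m.V, IsNilpotent.exp (-(x : Matrix (Fin N) (Fin N) ℝ)) * IsNilpotent.exp m.M =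
    IsNilpotent.exp S.D ∧ g • x0 = m.ψ x • x0
  Λ : ∀ y : m.V, (y : Matrix (Fin N) (Fin N) ℝ) ∈ S.Λ ↔ m.ψ y • x0 = x0

end

end Pool.Agent.TH142.PN
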